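import Pool.Agent.H4.CT.All
import Pool.Agent.H4.RF.NST
import Pool.Agent.H4.RF.R12
import Pool.Agent.H4.RF.TYP
import Pool.Agent.H4.RF.Fin
import Pool.Agent.H11.RF.PL
import Pool.Agent.H14.RF.COP
import Pool.Agent.H26.RF.KP
import Pool.Agent.H35.RF.ABL
import Pool.Agent.H39.RF.SB
import Pool.Agent.H68.RF.GEN
import Pool.Agent.H85.RF.BD
import Pool.Agent.H88.RF.CLF
import Pool.Agent.H88.RF.R21
import Pool.Agent.H96.RF.MOB
import Pool.Agent.H98.RF.LB

/-!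
# The relative form of the Alperin–McKay conjecture: assembly
-/

set_option autoImplicit false

namespace Pool.Agent.H4.RF.All

open AMc AMe AMs AMr

theorem fMOB : T_MOB := Pool.Agent.H96.RF.pf_MOB
theorem fCOP : T_COP := Pool.Agent.H14.RF.pf_COP
theorem fKP : T_KP := Pool.Agent.H26.RF.pf_KP
theorem fSB : T_SB := Pool.Agent.H39.RF.pf_SB
theorem fPL : T_PL := Pool.Agent.H11.RF.pf_PL fSB fKP
theorem fLB : T_LB := Pool.Agent.H98.RF.pf_LB
theorem fBD : T_BD := Pool.Agent.H85.RF.pf_BD fPL fLB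
theorem fABL : T_ABL := Pool.Agent.H35.RF.pf_ABL fBD fCOP
theorem fGEN : T_GEN := Pool.Agent.H68.RF.pf_GEN fABL fMOB
theorem fCLF : T_CLF := Pool.Agent.H88.RF.pf_CLF
theorem fNST : T_NST := Pool.Agent.H4.RF.pf_NST fGEN fCLF
theorem fTYP : T_TYP := Pool.Agent.H4.RF.pf_TYP
theorem fR12 : T_R12 := Pool.Agent.H4.RF.pf_R12 fNST fTYP
theorem fR21 : T_R21 := Pool.Agent.H88.RF.pf_R21

end Pool.Agent.H4.RF.All
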