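import Pool.Agent.H91.RF.TargetsA

/-!
# [EXPJ] expansion property of all platforms (MP_609556_an)
-/

open MeasureTheory Set Filter Topology Metric
open Pool.Agent.H91.RD Pool.Agent.H91.RF

namespace Pool.Agent.H4.RF.EXPJ

/-- one step: from a sub-profile to the expansion of balls -/
theorem step (hS : T_SUBP) (hE : T_EXPB) {N : ℕ} (hN : 1 ≤ N) {f : ℝ → ℝ} {K top cs c' m : ℝ}
    {y : ℝ → ℝ} (hf : Lip f K) (h0 : 0 < top) (h1 : top ≤ 1) (hft : f top = 0)
    (hn : ∃ δ > 0, ∀ s ∈ Ioo (top - δ) top, 0 < f s) (hc' : 0 < c') (hcc : c' < cs)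
    (hm : 0 ≤ m) (hmt : m < top) (hy : IsYb f top cs y) (hpos : ∀ τ ∈ Ioc 0 (top - m), 0 < y τ)
    {ε : ℝ} (hε : 0 < ε) :
    ∃ ℓ L R0 : ℝ, top - ε < ℓ ∧ m < ℓ ∧ ℓ < top ∧ 0 < L ∧ 0 < R0 ∧
      ∀ v : ℝ → E N → ℝ, Cls f v → (∀ t > 0, ∀ x, 0 ≤ v t x ∧ v t x ≤ 1) → ∀ t0 > 0, ∀ x0,
        ∀ R ≥ R0, ∀ s ≥ 0, (∀ y ∈ closedBall x0 R, ℓ ≤ v t0 y) →
        (∀ τ ∈ Icc 0 s, ∀ y, dist y x0 ≤ R + c' * τ → m ≤ v (t0 + τ) y) →
        ∀ y, dist y x0 ≤ R - L + c' * s → ℓ ≤ v (t0 + s) y := by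
  obtain ⟨δ, hδ, hnear⟩ := hn
  obtain ⟨ℓ, z1, q, a1, a2, a3, a4, a5, a6, a7, a8, a9, a10, a11, a12⟩ :=
    hS f K top cs m y hf h0 h1 hft ⟨δ, hδ, hnear⟩ (hc'.trans hcc) hm hmt hy hpos
      (min ε δ) (lt_min hε hδ)
  have h2 : 0 < f ℓ := hnear ℓ ⟨by linarith [min_le_right ε δ], a3⟩
  obtain ⟨L, R0, hL, hR0, hv⟩ := hE N f K cs m ℓ z1 c' q hN hf hm a2 (a3.trans_le h1) a4 a5 a6 a7
    a8 a9 a10 a11 a12 h2 hc' hcc
  exact ⟨ℓ, L, R0, by linarith [min_le_left ε δ], a2, a3, hL, hR0, hv⟩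

theorem expj (hY : T_YEX) (hS : T_SUBP) (hE : T_EXPB) : T_EXPJ := by
  intro N f K J b c y hN hR hf hT j
  -- monotonicity of the platforms
  have hb0 : ∀ i ≤ J, 0 ≤ b i := by
    intro i
    induction i with
    | zero => intro _; rw [hT.b0]
    | succ i ih => intro hi; linarith [ih (by omega), hT.lt i (by omega)]
  have hb1 : ∀ k i, i + k = J → b i ≤ 1 := by
    intro k
    induction k with
    | zero => intro i hi; have : i = J := by omega
              rw [this, hT.bJ]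
    | succ k ih => intro i hi; linarith [ih (i + 1) (by omega), hT.lt i (by omega)]
  have hb1' : ∀ i ≤ J, b i ≤ 1 := fun i hi => hb1 (J - i) i (by omega)
  induction j with
  | zero =>
    intro hj ε hε
    have hc := (hT.ext 0 hj).cpos
    set ε0 := min ε (c 0 / 2) with hε0
    have e0 : 0 < ε0 := lt_min hε (by linarith)
    have e1 : ε0 ≤ ε := min_le_left _ _
    have e2 : ε0 ≤ c 0 / 2 := min_le_right _ _
    have hb : 0 < b 1 := by have := hT.lt 0 hj; rw [hT.b0] at this; exact this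
    obtain ⟨y', hy'⟩ := hY f K (b 1) (c 0 - ε0 / 2) hf hb (hb1' 1 (by omega)) (hT.zer 1 (by omega))
      (by linarith)
    have hpos := (hT.ext 0 hj).below (c 0 - ε0 / 2) (by linarith) (by linarith) y' hy'
    obtain ⟨δ, hδ, _, hnear⟩ := hT.near 0 hj
    obtain ⟨ℓ, L, R0, a1, a2, a3, a4, a5, hv⟩ := step hS hE hN (c' := c 0 - ε0) (m := 0) hf hb
      (hb1' 1 (by omega)) (hT.zer 1 (by omega)) ⟨δ, hδ, hnear⟩ (by linarith) (by linarith) le_rfl hb
      hy' (by simpa using hpos) hε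
    refine ⟨ℓ, L, R0, a1, a3, a4, a5, fun v hcl hrg t0 ht0 x0 R hRR hball s hs z hz => ?_⟩
    refine hv v hcl hrg t0 ht0 x0 R hRR s hs hball (fun τ hτ w _ => ?_) z (hz.trans ?_)
    · exact (hrg (t0 + τ) (by linarith [hτ.1]) w).1
    · have := mul_le_mul_of_nonneg_right (show c 0 - ε ≤ c 0 - ε0 by linarith) hs
      linarith
  | succ j ih =>
    intro hj ε hε
    have hc := (hT.ext (j + 1) hj).cpos
    have hlt1 := hT.lt (j + 1) hj
    have hlt0 := hT.lt j (by omega)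
    have hbj := hb0 j (by omega)
    set ε0 := min (min ε (c (j + 1) / 2)) (b (j + 1 + 1) - b (j + 1)) with hε0
    have e0 : 0 < ε0 := lt_min (lt_min hε (by linarith)) (by linarith)
    have e1 : ε0 ≤ ε := (min_le_left _ _).trans (min_le_left _ _)
    have e2 : ε0 ≤ c (j + 1) / 2 := (min_le_left _ _).trans (min_le_right _ _)
    have e3 : ε0 ≤ b (j + 1 + 1) - b (j + 1) := min_le_right _ _
    set ε1 := min ε0 (b (j + 1)) with hε1
    have f0 : 0 < ε1 := lt_min e0 (by linarith)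
    have f1 : ε1 ≤ ε0 := min_le_left _ _
    have f2 : ε1 ≤ b (j + 1) := min_le_right _ _
    obtain ⟨ℓ', L', R0', p1, p2, p3, p4, hv'⟩ := ih (by omega) ε1 f0
    obtain ⟨y', hy'⟩ := hY f K (b (j + 1 + 1)) (c (j + 1) - ε0 / 2) hf (by linarith)
      (hb1' _ (by omega)) (hT.zer _ (by omega)) (by linarith)
    have hpos := (hT.ext (j + 1) hj).below (c (j + 1) - ε0 / 2) (by linarith) (by linarith) y' hy'
    obtain ⟨δ, hδ, _, hnear⟩ := hT.near (j + 1) hj
    obtain ⟨ℓ, L, R0, a1, a2, a3, a4, a5, hv⟩ := step hS hE hN (c' := c (j + 1) - ε0)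
      (m := b (j + 1) - ε1) hf (by linarith) (hb1' _ (by omega)) (hT.zer _ (by omega))
      ⟨δ, hδ, hnear⟩ (by linarith) (by linarith) (by linarith) (by linarith)
      hy' (fun τ hτ => hpos τ ⟨hτ.1, by linarith [hτ.2]⟩) e0
    refine ⟨ℓ, L' + L, max R0' (R0 + L'), by linarith, a3, by linarith,
      lt_max_of_lt_left p4, fun v hcl hrg t0 ht0 x0 R hRR hball s hs z hz => ?_⟩
    have hR1 : R0' ≤ R := (le_max_left _ _).trans hRR
    have hR2 : R0 + L' ≤ R := (le_max_right _ _).trans hRR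
    have hIH := hv' v hcl hrg t0 ht0 x0 R hR1 (fun w hw => by linarith [hball w hw])
    refine hv v hcl hrg t0 ht0 x0 (R - L') (by linarith) s hs (fun w hw => hball w ?_)
      (fun τ hτ w hw => ?_) z (hz.trans ?_)
    · rw [mem_closedBall] at hw ⊢
      linarith
    · have h5 := hIH τ hτ.1 w (hw.trans (by
        have h6 := hT.mono j hj
        have := mul_le_mul_of_nonneg_right
          (show c (j + 1) - ε0 ≤ c j - ε1 by linarith) hτ.1
        linarith))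
      linarith
    · have := mul_le_mul_of_nonneg_right (show c (j + 1) - ε ≤ c (j + 1) - ε0 by linarith) hs
      linarith

end Pool.Agent.H4.RF.EXPJ
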