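import Pool.Agent.H91.RF.TargetsF
import Pool.Agent.H3.RD.Base

/-!
# [IEL] interior estimates for the linear equation (MP_609556_an)
-/

open MeasureTheory Set Filter Topology Metric
open Pool.Agent.H29.TF
open Pool.Agent.H91.RD Pool.Agent.H91.RF

namespace Pool.Agent.H4.RF.IEL

variable {N : ℕ}

/-- the constant `2^{N/2}` -/
noncomputable def c2 (N : ℕ) : ℝ := 2 ^ ((Module.finrank ℝ (E N) : ℝ) / 2)

theorem c2_pos : 0 < c2 N := by unfold c2; positivity

theorem one_le_c2 : 1 ≤ c2 N := by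
  unfold c2
  apply Real.one_le_rpow (by norm_num)
  positivity

theorem rpow_double {p : ℝ} (hp : 0 < p) (n : ℝ) :
    p ^ (-n / 2) = 2 ^ (n / 2) * (2 * p) ^ (-n / 2) := by
  rw [Real.mul_rpow (by norm_num) hp.le, ← mul_assoc, ← Real.rpow_add (by norm_num)]
  have h2 : n / 2 + -n / 2 = 0 := by ring
  rw [h2, Real.rpow_zero, one_mul]

theorem hk_eq {τ : ℝ} (hτ : 0 < τ) (x : E N) :
    hk τ x = c2 N * hk (2 * τ) x * Real.exp (-(‖x‖ ^ 2 / (8 * τ))) := by
  have hpi := Real.pi_pos
  unfold hk c2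
  have e1 : (4 * Real.pi * τ) ^ (-(Module.finrank ℝ (E N) : ℝ) / 2) =
      2 ^ ((Module.finrank ℝ (E N) : ℝ) / 2) *
        (4 * Real.pi * (2 * τ)) ^ (-(Module.finrank ℝ (E N) : ℝ) / 2) := by
    have h1 : 4 * Real.pi * (2 * τ) = 2 * (4 * Real.pi * τ) := by ring
    rw [h1]
    exact rpow_double (by positivity) _
  rw [e1]
  have e2 : Real.exp (-‖x‖ ^ 2 / (4 * τ)) =
      Real.exp (-‖x‖ ^ 2 / (4 * (2 * τ))) * Real.exp (-(‖x‖ ^ 2 / (8 * τ))) := by
    rw [← Real.exp_add]
    congr 1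
    field_simp
    ring
  rw [e2]
  ring

/-- the gradient of the heat kernel -/
theorem grad_hk_le {τ : ℝ} (hτ : 0 < τ) (x : E N) :
    1 / (2 * τ) * hk τ x * ‖x‖ ≤ c2 N / √τ * hk (2 * τ) x := by
  obtain ⟨q, hq, rfl⟩ : ∃ q > 0, τ = q * q :=
    ⟨√τ, Real.sqrt_pos.2 hτ, (Real.mul_self_sqrt hτ.le).symm⟩
  rw [Real.sqrt_mul_self hq.le]
  have h1 : ‖x‖ * Real.exp (-(‖x‖ ^ 2 / (8 * (q * q)))) ≤ 2 * q := by
    have h2 : ‖x‖ ≤ 2 * q * Real.exp (‖x‖ ^ 2 / (8 * (q * q))) := by
      have h3 : ‖x‖ ^ 2 / (8 * (q * q)) + 1 ≤ Real.exp (‖x‖ ^ 2 / (8 * (q * q))) :=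
        Real.add_one_le_exp _
      have h4 : ‖x‖ ≤ 2 * q * (‖x‖ ^ 2 / (8 * (q * q)) + 1) := by
        have e : 2 * q * (‖x‖ ^ 2 / (8 * (q * q)) + 1) = (‖x‖ ^ 2 / (4 * q) + 2 * q) := by
          field_simp; ring
        rw [e]
        have e2 : ‖x‖ ^ 2 / (4 * q) + 2 * q - ‖x‖ =
            ((‖x‖ - 2 * q) ^ 2 + 4 * q * q) / (4 * q) := by
          field_simp; ring
        have e3 : 0 ≤ ((‖x‖ - 2 * q) ^ 2 + 4 * q * q) / (4 * q) := by positivity
        linarith
      exact h4.trans (mul_le_mul_of_nonneg_left h3 (by positivity))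
    calc ‖x‖ * Real.exp (-(‖x‖ ^ 2 / (8 * (q * q))))
        ≤ 2 * q * Real.exp (‖x‖ ^ 2 / (8 * (q * q))) * Real.exp (-(‖x‖ ^ 2 / (8 * (q * q)))) :=
          mul_le_mul_of_nonneg_right h2 (Real.exp_pos _).le
      _ = 2 * q := by rw [mul_assoc, ← Real.exp_add, add_neg_cancel, Real.exp_zero, mul_one]
  rw [hk_eq hτ x]
  have h5 : 0 ≤ 1 / (2 * (q * q)) * (c2 N * hk (2 * (q * q)) x) := by
    have := hk_nonneg (by positivity : 0 ≤ 2 * (q * q)) x
    have := c2_pos (N := N)
    positivity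
  calc 1 / (2 * (q * q)) * (c2 N * hk (2 * (q * q)) x * Real.exp (-(‖x‖ ^ 2 / (8 * (q * q))))) * ‖x‖
      = 1 / (2 * (q * q)) * (c2 N * hk (2 * (q * q)) x) *
        (‖x‖ * Real.exp (-(‖x‖ ^ 2 / (8 * (q * q))))) := by ring
    _ ≤ 1 / (2 * (q * q)) * (c2 N * hk (2 * (q * q)) x) * (2 * q) :=
        mul_le_mul_of_nonneg_left h1 h5
    _ = c2 N / q * hk (2 * (q * q)) x := by
        field_simp

/-- comparison of kernels -/
theorem hk_le_hk {τ σ : ℝ} (hτ : 0 < τ) (h1 : τ ≤ σ) (h2 : σ ≤ 2 * τ) (x : E N) :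
    hk σ x ≤ c2 N * hk (2 * τ) x := by
  have hpi := Real.pi_pos
  refine (Pool.Agent.H3.RD.hk_le_of_mem hτ h1 h2 x).trans (le_of_eq ?_)
  congr 1
  unfold c2
  have h3 : 4 * Real.pi * (2 * τ) = 2 * (4 * Real.pi * τ) := by ring
  have hp : 0 < 4 * Real.pi * τ := by positivity
  have h5 : (2 * (4 * Real.pi * τ)) ^ (-(Module.finrank ℝ (E N) : ℝ) / 2) ≠ 0 := by positivity
  rw [h3, rpow_double hp, mul_div_assoc, div_self h5, mul_one]

/-- shift of the kernel -/
theorem hk_shift {τ : ℝ} (hτ : 0 < τ) (x x' y : E N) :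
    hk τ (x' - y) ≤ c2 N * Real.exp (‖x - x'‖ ^ 2 / (4 * τ)) * hk (2 * τ) (x - y) := by
  have hpi := Real.pi_pos
  have e1 : hk τ (x' - y) = c2 N * ((4 * Real.pi * (2 * τ)) ^
      (-(Module.finrank ℝ (E N) : ℝ) / 2) * Real.exp (-(‖x' - y‖ ^ 2 / (4 * τ)))) := by
    rw [hk_eq hτ]
    unfold hk
    have : Real.exp (-(‖x' - y‖ ^ 2 / (4 * τ))) = Real.exp (-‖x' - y‖ ^ 2 / (4 * (2 * τ))) *
        Real.exp (-(‖x' - y‖ ^ 2 / (8 * τ))) := by
      rw [← Real.exp_add]
      congr 1
      field_simp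
      ring
    rw [this]
    ring
  rw [e1]
  unfold hk
  have hn : ‖x - y‖ ^ 2 ≤ 2 * ‖x' - y‖ ^ 2 + 2 * ‖x - x'‖ ^ 2 := by
    have h1 : ‖x - y‖ ≤ ‖x - x'‖ + ‖x' - y‖ := norm_sub_le_norm_sub_add_norm_sub _ _ _
    have h2 := norm_nonneg (x - y)
    nlinarith [sq_nonneg (‖x - x'‖ - ‖x' - y‖)]
  have h3 : Real.exp (-(‖x' - y‖ ^ 2 / (4 * τ))) ≤
      Real.exp (‖x - x'‖ ^ 2 / (4 * τ)) * Real.exp (-‖x - y‖ ^ 2 / (4 * (2 * τ))) := by
    rw [← Real.exp_add]
    apply Real.exp_le_exp.2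
    have e2 : ‖x - x'‖ ^ 2 / (4 * τ) + -‖x - y‖ ^ 2 / (4 * (2 * τ)) + ‖x' - y‖ ^ 2 / (4 * τ) =
        (2 * ‖x' - y‖ ^ 2 + 2 * ‖x - x'‖ ^ 2 - ‖x - y‖ ^ 2) / (8 * τ) := by
      field_simp
      ring
    have e3 : 0 ≤ (2 * ‖x' - y‖ ^ 2 + 2 * ‖x - x'‖ ^ 2 - ‖x - y‖ ^ 2) / (8 * τ) :=
      div_nonneg (by linarith) (by positivity)
    linarith
  have h4 : 0 ≤ c2 N * (4 * Real.pi * (2 * τ)) ^ (-(Module.finrank ℝ (E N) : ℝ) / 2) := by
    have := c2_pos (N := N)
    positivity
  calc c2 N * ((4 * Real.pi * (2 * τ)) ^ (-(Module.finrank ℝ (E N) : ℝ) / 2) *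
        Real.exp (-(‖x' - y‖ ^ 2 / (4 * τ))))
      = c2 N * (4 * Real.pi * (2 * τ)) ^ (-(Module.finrank ℝ (E N) : ℝ) / 2) *
        Real.exp (-(‖x' - y‖ ^ 2 / (4 * τ))) := by ring
    _ ≤ _ := mul_le_mul_of_nonneg_left h3 h4
    _ = _ := by ring

/-- the gradient of `P τ f` as an integral -/
noncomputable def DP (τ : ℝ) (f : E N → ℝ) (x : E N) : E N →L[ℝ] ℝ :=
  ∫ y, (-(1 / (2 * τ)) * (hk τ (x - y) * f y)) • (innerSL ℝ (x - y) : E N →L[ℝ] ℝ)

theorem norm_DP_le {τ : ℝ} (hτ : 0 < τ) {f : E N → ℝ} (hf : AEStronglyMeasurable f volume)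
    {C : ℝ} (hC : ∀ x, |f x| ≤ C) (x : E N) :
    ‖DP τ f x‖ ≤ c2 N / √τ * P (2 * τ) (fun y => |f y|) x := by
  unfold DP P
  rw [← integral_const_mul]
  have hi : Integrable (fun y => c2 N / √τ * (hk (2 * τ) (x - y) * |f y|)) := by
    apply Integrable.const_mul
    exact integrable_hk_mul (by positivity) (f := fun y => |f y|) hf.norm
      (C := C) (fun y => by rw [abs_abs]; exact hC y) x
  refine norm_integral_le_of_norm_le hi (Eventually.of_forall fun y => ?_)
  rw [norm_smul, innerSL_apply_norm, norm_mul, norm_mul, norm_neg,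
    Real.norm_of_nonneg (by positivity : 0 ≤ 1 / (2 * τ)), Real.norm_of_nonneg (hk_nonneg hτ.le _),
    Real.norm_eq_abs]
  have h1 := mul_le_mul_of_nonneg_right (grad_hk_le hτ (x - y)) (abs_nonneg (f y))
  calc 1 / (2 * τ) * (hk τ (x - y) * |f y|) * ‖x - y‖
      = 1 / (2 * τ) * hk τ (x - y) * ‖x - y‖ * |f y| := by ring
    _ ≤ _ := h1
    _ = _ := by ring

theorem P_le_P {τ σ : ℝ} (hτ : 0 < τ) (h1 : τ ≤ σ) (h2 : σ ≤ 2 * τ) {f : E N → ℝ}
    (hf : AEStronglyMeasurable f volume) {C : ℝ} (hC : ∀ x, |f x| ≤ C) (h0 : ∀ x, 0 ≤ f x)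
    (x : E N) : P σ f x ≤ c2 N * P (2 * τ) f x := by
  unfold P
  rw [← integral_const_mul]
  apply integral_mono
  · exact integrable_hk_mul (hτ.trans_le h1) hf hC x
  · exact (integrable_hk_mul (by positivity : 0 < 2 * τ) hf hC x).const_mul _
  · intro y
    simp only
    have := mul_le_mul_of_nonneg_right (hk_le_hk hτ h1 h2 (x - y)) (h0 y)
    linarith

theorem ae_ne (t : ℝ) : ∀ᵐ r : ℝ, r ≠ t := by
  rw [ae_iff]
  simp

theorem ii_invsqrt {s t : ℝ} (hst : s < t) :
    IntervalIntegrable (fun r : ℝ => 1 / √(t - r)) volume s t := by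
  have h1 : IntervalIntegrable (fun r : ℝ => r ^ (-(1 / 2) : ℝ)) volume 0 (t - s) :=
    intervalIntegral.intervalIntegrable_rpow' (by norm_num)
  have h2 := h1.comp_sub_left t
  simp only [sub_zero, sub_sub_cancel] at h2
  refine h2.symm.congr (fun r hr => ?_)
  rw [uIoc_of_le hst.le] at hr
  show (t - r) ^ (-(1 / 2) : ℝ) = 1 / √(t - r)
  rw [Real.rpow_neg (by linarith [hr.2]), Real.sqrt_eq_rpow, one_div ((t - r) ^ (1 / 2 : ℝ))]

theorem int_invsqrt {s t : ℝ} (hst : s < t) : ∫ r in s..t, 1 / √(t - r) = 2 * √(t - s) := by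
  have h1 : ∫ r in s..t, 1 / √(t - r) = ∫ r in s..t, (t - r) ^ (-(1 / 2) : ℝ) := by
    apply intervalIntegral.integral_congr
    intro r hr
    rw [uIcc_of_le hst.le] at hr
    show 1 / √(t - r) = (t - r) ^ (-(1 / 2) : ℝ)
    rw [Real.rpow_neg (by linarith [hr.2]), Real.sqrt_eq_rpow, one_div]
  rw [h1, intervalIntegral.integral_comp_sub_left (fun r => r ^ (-(1 / 2) : ℝ)) t,
    integral_rpow (Or.inl (by norm_num)), sub_self]
  have h2 : (-(1 / 2) : ℝ) + 1 = 1 / 2 := by norm_num
  rw [h2, Real.zero_rpow (by norm_num), sub_zero, ← Real.sqrt_eq_rpow]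
  ring

section

variable {K : ℝ} {V : ℝ → E N → ℝ}

theorem abs_gk (hKER : T_KER) (hV : Pt K V) {s t : ℝ} (hst : s < t) (x y : E N) :
    |gk V t x s y| ≤ Real.exp (K * (t - s)) * hk (t - s) (x - y) := by
  obtain ⟨h1, h2⟩ := (hKER N K V hV).2.1 s t hst x y
  have h3 : 0 ≤ gk V t x s y :=
    le_trans (mul_nonneg (Real.exp_pos _).le (hk_nonneg (by linarith) _)) h1
  rw [abs_of_nonneg h3]
  exact h2

theorem slice {a b : ℝ} {z : ℝ → E N → ℝ} (hz : LinD V a b z) {t : ℝ} (h1 : a ≤ t) (h2 : t ≤ b) :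
    Measurable (z t) := by
  rcases h1.eq_or_lt with h | h
  · rw [← h]; exact hz.meas
  · have h3 : Continuous (z t) := by
      rw [← continuousOn_univ]
      exact hz.cont.comp (f := fun y : E N => (t, y)) (by fun_prop)
        (fun y _ => ⟨⟨h, h2⟩, mem_univ _⟩)
    exact h3.measurable

/-- pointwise bound of a solution -/
theorem abs_z_le (hKREP : T_KREP) (hKER : T_KER) (hV : Pt K V) {a b : ℝ} {z : ℝ → E N → ℝ}
    (hz : LinD V a b z) {s r : ℝ} (h1 : a ≤ s) (h2 : s < r) (h3 : r ≤ b) (x : E N) :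
    |z r x| ≤ Real.exp (K * (r - s)) * P (r - s) (fun y => |z s y|) x := by
  obtain ⟨M, hM⟩ := hz.bdd
  have hs : s ∈ Icc a b := ⟨h1, by linarith⟩
  rw [hKREP N K a b V z hV hz s r h1 h2 h3 x, ← Real.norm_eq_abs]
  unfold P
  rw [← integral_const_mul]
  have hi : Integrable (fun y => hk (r - s) (x - y) * |z s y|) :=
    integrable_hk_mul (by linarith) (f := fun y => |z s y|)
      (slice hz h1 hs.2).aestronglyMeasurable.norm (C := M)
      (fun y => by rw [abs_abs]; exact hM s hs y) x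
  refine norm_integral_le_of_norm_le (hi.const_mul _) (Eventually.of_forall fun y => ?_)
  rw [norm_mul, Real.norm_eq_abs, Real.norm_eq_abs]
  have := mul_le_mul_of_nonneg_right (abs_gk hKER hV h2 x y) (abs_nonneg (z s y))
  linarith

/-- the gradient estimate -/
theorem grad_z (hKREP : T_KREP) (hKER : T_KER) (hV : Pt K V) {a b : ℝ} {z : ℝ → E N → ℝ}
    (hz : LinD V a b z) {s t : ℝ} (h1 : a ≤ s) (h2 : s < t) (h3 : t ≤ b) (h4 : t ≤ s + 1)
    (x : E N) : ∃ D : E N →L[ℝ] ℝ, HasFDerivAt (z t) D x ∧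
      ‖D‖ ≤ (c2 N + 2 * (c2 N * (K * Real.exp K * c2 N))) / √(t - s) *
        ∫ y, hk (2 * (t - s)) (x - y) * |z s y| := by
  have hK := hV.K0
  have hc := c2_pos (N := N)
  obtain ⟨M, hM⟩ := hz.bdd
  have hM0 : 0 ≤ M := (abs_nonneg _).trans (hM s ⟨h1, by linarith⟩ 0)
  have hts : 0 < t - s := by linarith
  set G : E N → ℝ := fun y => |z s y| with hG
  have hGm : AEStronglyMeasurable G volume :=
    (slice hz h1 (by linarith)).aestronglyMeasurable.norm
  have hGb : ∀ y, |G y| ≤ M := fun y => by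
    rw [hG]; simp only [abs_abs]; exact hM s ⟨h1, by linarith⟩ y
  have hG0 : ∀ y, 0 ≤ G y := fun y => abs_nonneg _
  -- the truncated source
  have hcont : ContinuousOn (fun p : ℝ × E N => z p.1 p.2) (Ioc s t ×ˢ univ) :=
    hz.cont.mono (prod_mono (Ioc_subset_Ioc h1 h3) (subset_refl _))
  set H : ℝ → E N → ℝ := fun r y => V r y * Pool.Agent.H3.RD.tr s t z r y with hH
  have htrm := Pool.Agent.H3.RD.meas_tr hcont
  have hHm : Measurable (Function.uncurry H) := hV.meas.mul htrm
  have htrb : ∀ r y, |Pool.Agent.H3.RD.tr s t z r y| ≤ M := by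
    apply Pool.Agent.H3.RD.tr_bdd hM0
    intro r hr y
    exact hM r ⟨by linarith [hr.1], by linarith [hr.2]⟩ y
  have hHb : ∀ r y, |H r y| ≤ K * M := by
    intro r y
    rw [hH]
    simp only [abs_mul]
    exact mul_le_mul (hV.bdd r y) (htrb r y) (abs_nonneg _) hK.le
  have hHr : ∀ r, AEStronglyMeasurable (H r) volume := fun r =>
    (hHm.comp measurable_prodMk_left).aestronglyMeasurable
  have hHe : ∀ r ∈ Ioc s t, ∀ y, H r y = V r y * z r y := by
    intro r hr y
    simp only [hH, Pool.Agent.H3.RD.tr_eq z hr]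
  -- Duhamel
  have e1 : z t = fun x => P (t - s) (z s) x + ∫ r in Ioo s t, P (t - r) (H r) x := by
    funext x
    rw [hz.duh s t h1 h2 h3 x, intervalIntegral.integral_of_le h2.le, integral_Ioc_eq_integral_Ioo]
    congr 1
    refine setIntegral_congr_fun measurableSet_Ioo fun r hr => ?_
    simp only
    congr 1
    funext y
    exact (hHe r ⟨hr.1, hr.2.le⟩ y).symm
  have d1 : HasFDerivAt (P (t - s) (z s)) (DP (t - s) (z s) x) x :=
    hasFDerivAt_P hts (slice hz h1 (by linarith)).aestronglyMeasurable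
      (hM s ⟨h1, by linarith⟩) x
  have hPm : ∀ x : E N, AEStronglyMeasurable (fun r => P (t - r) (H r) x)
      (volume.restrict (Ioo s t)) := fun x =>
    ((Pool.Agent.H3.RD.meas_P t hHm).measurable.comp measurable_prodMk_right).aestronglyMeasurable
  have hDm : AEStronglyMeasurable (fun r => DP (t - r) (H r) x) (volume.restrict (Ioo s t)) := by
    unfold DP
    have m1 : Measurable (fun p : ℝ × E N =>
        (-(1 / (2 * (t - p.1))) * (hk (t - p.1) (x - p.2) * H p.1 p.2))) := by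
      apply Measurable.mul
      · fun_prop
      · apply Measurable.mul _ hHm
        exact (measurable_hk_uncurry (V := E N)).comp
          ((measurable_const.sub measurable_fst).prodMk (measurable_const.sub measurable_snd))
    have m2 : StronglyMeasurable (fun p : ℝ × E N =>
        (-(1 / (2 * (t - p.1))) * (hk (t - p.1) (x - p.2) * H p.1 p.2)) •
          (innerSL ℝ (x - p.2) : E N →L[ℝ] ℝ)) := by
      apply StronglyMeasurable.smul m1.stronglyMeasurable
      apply Continuous.stronglyMeasurable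
      exact (innerSL ℝ).continuous.comp (by fun_prop)
    exact (m2.integral_prod_right').aestronglyMeasurable
  have hDb : ∀ r ∈ Ioo s t, ∀ x, ‖DP (t - r) (H r) x‖ ≤ 1 / √(t - r) * (c2 N * (K * M)) := by
    intro r hr x
    have hr1 : 0 < t - r := by linarith [hr.2]
    have q1 := norm_DP_le hr1 (hHr r) (hHb r) x
    have q2 : P (2 * (t - r)) (fun y => |H r y|) x ≤ K * M :=
      (le_abs_self _).trans (abs_P_le (by linarith)
        (fun y => by rw [abs_abs]; exact hHb r y) x)
    calc ‖DP (t - r) (H r) x‖ ≤ _ := q1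
      _ ≤ c2 N / √(t - r) * (K * M) := mul_le_mul_of_nonneg_left q2 (by positivity)
      _ = _ := by ring
  have hsq : IntegrableOn (fun r : ℝ => 1 / √(t - r)) (Ioo s t) volume := by
    have := ii_invsqrt h2
    rwa [intervalIntegrable_iff_integrableOn_Ioo_of_le h2.le] at this
  have d2 : HasFDerivAt (fun x => ∫ r in Ioo s t, P (t - r) (H r) x)
      (∫ r in Ioo s t, DP (t - r) (H r) x) x := by
    refine hasFDerivAt_integral_of_dominated_of_fderiv_le (𝕜 := ℝ) (s := univ)
      (F := fun (x : E N) (r : ℝ) => P (t - r) (H r) x)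
      (F' := fun (x : E N) (r : ℝ) => DP (t - r) (H r) x)
      (bound := fun r => 1 / √(t - r) * (c2 N * (K * M))) univ_mem
      (Eventually.of_forall hPm) ?_ hDm ?_ (hsq.mul_const _) ?_
    · refine Integrable.mono' (g := fun _ => K * M) (integrable_const _) (hPm x) ?_
      filter_upwards [ae_restrict_mem measurableSet_Ioo] with r hr
      rw [Real.norm_eq_abs]
      exact abs_P_le (by linarith [hr.2]) (hHb r) x
    · filter_upwards [ae_restrict_mem measurableSet_Ioo] with r hr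
      intro x _
      exact hDb r hr x
    · filter_upwards [ae_restrict_mem measurableSet_Ioo] with r hr
      intro x _
      exact hasFDerivAt_P (by linarith [hr.2]) (hHr r) (hHb r) x
  refine ⟨DP (t - s) (z s) x + ∫ r in Ioo s t, DP (t - r) (H r) x, ?_, ?_⟩
  · rw [e1]
    exact d1.add d2
  · set Q := ∫ y, hk (2 * (t - s)) (x - y) * |z s y| with hQ
    have hQP : Q = P (2 * (t - s)) G x := rfl
    have hQ0 : 0 ≤ Q := integral_nonneg fun y => mul_nonneg (hk_nonneg (by linarith) _)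
      (abs_nonneg _)
    have b1 : ‖DP (t - s) (z s) x‖ ≤ c2 N / √(t - s) * Q :=
      norm_DP_le hts (slice hz h1 (by linarith)).aestronglyMeasurable
        (hM s ⟨h1, by linarith⟩) x
    have b3 : ∀ r ∈ Ioo s t, ‖DP (t - r) (H r) x‖ ≤
        1 / √(t - r) * (c2 N * (K * Real.exp K * c2 N) * Q) := by
      intro r hr
      have hr1 : 0 < t - r := by linarith [hr.2]
      have hr2 : 0 < r - s := by linarith [hr.1]
      have q1 := norm_DP_le hr1 (hHr r) (hHb r) x
      have q2 : ∀ y, |H r y| ≤ K * Real.exp K * P (r - s) G y := by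
        intro y
        rw [hHe r ⟨hr.1, hr.2.le⟩ y, abs_mul]
        have q3 := abs_z_le hKREP hKER hV hz h1 hr.1 (by linarith [hr.2]) y
        have q4 : Real.exp (K * (r - s)) ≤ Real.exp K := by
          apply Real.exp_le_exp.2
          nlinarith [hr.2]
        have q5 : 0 ≤ P (r - s) G y := P_nonneg hr2.le hG0 y
        calc |V r y| * |z r y| ≤ K * (Real.exp K * P (r - s) G y) :=
              mul_le_mul (hV.bdd r y) (q3.trans (mul_le_mul_of_nonneg_right q4 q5))
                (abs_nonneg _) hK.le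
          _ = _ := by ring
      have hPG : AEStronglyMeasurable (P (r - s) G) volume := aesm_P hGm
      have q6 : P (2 * (t - r)) (fun y => |H r y|) x ≤
          K * Real.exp K * P (2 * (t - r) + (r - s)) G x := by
        rw [← P_P (by linarith) hr2 hGm hGb x, ← P_const_mul]
        apply P_mono (by linarith)
        · exact integrable_hk_mul (by linarith) (f := fun y => |H r y|) (hHr r).norm
            (C := K * M) (fun y => by rw [abs_abs]; exact hHb r y) x
        · refine integrable_hk_mul (by linarith) (f := fun y => K * Real.exp K * P (r - s) G y)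
            (hPG.const_mul _) (C := K * Real.exp K * M) (fun y => ?_) x
          rw [abs_mul, abs_of_nonneg (by positivity : 0 ≤ K * Real.exp K)]
          exact mul_le_mul_of_nonneg_left (abs_P_le hr2 hGb y) (by positivity)
        · exact q2
      have q7 : P (2 * (t - r) + (r - s)) G x ≤ c2 N * Q :=
        P_le_P hts (by linarith) (by linarith) hGm hGb hG0 x
      calc ‖DP (t - r) (H r) x‖ ≤ _ := q1
        _ ≤ c2 N / √(t - r) * (K * Real.exp K * (c2 N * Q)) :=
            mul_le_mul_of_nonneg_left (q6.trans (mul_le_mul_of_nonneg_left q7 (by positivity)))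
              (by positivity)
        _ = _ := by ring
    have b2 : ‖∫ r in Ioo s t, DP (t - r) (H r) x‖ ≤
        2 * √(t - s) * (c2 N * (K * Real.exp K * c2 N) * Q) := by
      rw [← int_invsqrt h2, intervalIntegral.integral_of_le h2.le, integral_Ioc_eq_integral_Ioo,
        ← integral_mul_const]
      refine norm_integral_le_of_norm_le (hsq.mul_const _) ?_
      filter_upwards [ae_restrict_mem measurableSet_Ioo] with r hr
      exact b3 r hr
    have b4 : √(t - s) ≤ 1 / √(t - s) := by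
      have hp : 0 < √(t - s) := Real.sqrt_pos.2 hts
      rw [le_div_iff₀ hp, Real.mul_self_sqrt hts.le]
      linarith
    calc _ ≤ _ := norm_add_le _ _
      _ ≤ c2 N / √(t - s) * Q + 2 * √(t - s) * (c2 N * (K * Real.exp K * c2 N) * Q) :=
          add_le_add b1 b2
      _ ≤ c2 N / √(t - s) * Q + 2 * (1 / √(t - s)) * (c2 N * (K * Real.exp K * c2 N) * Q) := by
          gcongr
      _ = _ := by ring

/-- the modulus in time -/
theorem time_z (hKREP : T_KREP) (hKER : T_KER) (hV : Pt K V) {A : ℝ} (hA : 1 ≤ A)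
    (hmom : ∀ t > 0, Integrable (fun z : E N => hk t z * ‖z‖) ∧ ∫ z : E N, hk t z * ‖z‖ ≤ A * √t)
    {a b : ℝ} {z : ℝ → E N → ℝ} {C1 : ℝ} (hC1 : 0 ≤ C1)
    (hz : LinD V a b z) {s t t' : ℝ} (h1 : a ≤ s) (h2 : s < t) (h3 : t < t') (h4 : t' ≤ b)
    (h5 : t' - t ≤ t - s) (h6 : t ≤ s + 1)
    (hgr : ∀ x : E N, ∃ D : E N →L[ℝ] ℝ, HasFDerivAt (z t) D x ∧
      ‖D‖ ≤ C1 / √(t - s) * ∫ y, hk (2 * (t - s)) (x - y) * |z s y|) (x : E N) :
    |z t' x - z t x| ≤ (C1 * c2 N * c2 N * A * √2 + K * Real.exp (2 * K) * (c2 N * c2 N)) *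
      √((t' - t) / (t - s)) * ∫ y, hk (4 * (t - s)) (x - y) * |z s y| := by
  have hK := hV.K0
  have hc := c2_pos (N := N)
  obtain ⟨M, hM⟩ := hz.bdd
  have hs : s ∈ Icc a b := ⟨h1, by linarith⟩
  have ht : t ∈ Icc a b := ⟨by linarith, by linarith⟩
  have hM0 : 0 ≤ M := (abs_nonneg _).trans (hM s hs 0)
  have hτ : 0 < t - s := by linarith
  have hδ : 0 < t' - t := by linarith
  set G : E N → ℝ := fun y => |z s y| with hG
  have hGm : AEStronglyMeasurable G volume :=
    (slice hz h1 (by linarith)).aestronglyMeasurable.norm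
  have hGb : ∀ y, |G y| ≤ M := fun y => by
    rw [hG]; simp only [abs_abs]; exact hM s hs y
  have hG0 : ∀ y, 0 ≤ G y := fun y => abs_nonneg _
  have hQP : (∫ y, hk (4 * (t - s)) (x - y) * |z s y|) = P (4 * (t - s)) G x := rfl
  rw [hQP]
  set Q := P (4 * (t - s)) G x with hQ
  have hQ0 : 0 ≤ Q := P_nonneg (by linarith) hG0 x
  -- Lipschitz estimate of `z t` around `x`
  have hL : ∀ y, |z t y - z t x| ≤ C1 / √(t - s) *
      (c2 N * Real.exp (‖x - y‖ ^ 2 / (8 * (t - s))) * Q) * ‖x - y‖ := by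
    intro y
    have hd : ∀ w : E N, DifferentiableAt ℝ (z t) w := fun w => by
      obtain ⟨D, hD, _⟩ := hgr w
      exact hD.differentiableAt
    have hbd : ∀ w ∈ closedBall x ‖x - y‖, ‖fderiv ℝ (z t) w‖ ≤ C1 / √(t - s) *
        (c2 N * Real.exp (‖x - y‖ ^ 2 / (8 * (t - s))) * Q) := by
      intro w hw
      rw [mem_closedBall, dist_comm, dist_eq_norm] at hw
      obtain ⟨D, hD, hDn⟩ := hgr w
      rw [hD.fderiv]
      refine hDn.trans (mul_le_mul_of_nonneg_left ?_ (by positivity))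
      rw [hQ]
      unfold P
      rw [← integral_const_mul]
      apply integral_mono
      · exact integrable_hk_mul (f := fun y => |z s y|) (by linarith) hGm hGb w
      · exact (integrable_hk_mul (by linarith) hGm hGb x).const_mul _
      · intro v
        simp only
        have q1 := hk_shift (by linarith : 0 < 2 * (t - s)) x w v
        have q2 : (2 : ℝ) * (2 * (t - s)) = 4 * (t - s) := by ring
        rw [q2] at q1
        have q3 : Real.exp (‖x - w‖ ^ 2 / (4 * (2 * (t - s)))) ≤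
            Real.exp (‖x - y‖ ^ 2 / (8 * (t - s))) := by
          apply Real.exp_le_exp.2
          have q4 : 4 * (2 * (t - s)) = 8 * (t - s) := by ring
          rw [q4]
          apply div_le_div_of_nonneg_right _ (by linarith)
          exact pow_le_pow_left₀ (norm_nonneg _) hw 2
        have q5 := hk_nonneg (by linarith : 0 ≤ 4 * (t - s)) (x - v)
        calc hk (2 * (t - s)) (w - v) * |z s v|
            ≤ (c2 N * Real.exp (‖x - w‖ ^ 2 / (4 * (2 * (t - s)))) *
              hk (4 * (t - s)) (x - v)) * |z s v| :=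
              mul_le_mul_of_nonneg_right q1 (abs_nonneg _)
          _ ≤ (c2 N * Real.exp (‖x - y‖ ^ 2 / (8 * (t - s))) *
              hk (4 * (t - s)) (x - v)) * |z s v| := by gcongr
          _ = _ := by ring
    have h7 := (convex_closedBall x ‖x - y‖).norm_image_sub_le_of_norm_fderiv_le (𝕜 := ℝ)
      (f := z t) (x := x) (y := y) (fun w _ => hd w) hbd
      (mem_closedBall_self (norm_nonneg _))
      (by rw [mem_closedBall, dist_comm, dist_eq_norm])
    rw [Real.norm_eq_abs, norm_sub_rev y x] at h7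
    exact h7
  have hmom2 := hmom (2 * (t' - t)) (by linarith)
  have hi2 : Integrable (fun y : E N => hk (2 * (t' - t)) (x - y) * ‖x - y‖) :=
    hmom2.1.comp_sub_left x
  have he2 : ∫ y : E N, hk (2 * (t' - t)) (x - y) * ‖x - y‖ =
      ∫ z : E N, hk (2 * (t' - t)) z * ‖z‖ :=
    integral_sub_left_eq_self (fun z : E N => hk (2 * (t' - t)) z * ‖z‖) volume x
  -- first term
  have b1 : |P (t' - t) (z t) x - z t x| ≤
      C1 / √(t - s) * (c2 N * Q) * (c2 N * (A * √(2 * (t' - t)))) := by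
    have e1 : P (t' - t) (z t) x - z t x = ∫ y, hk (t' - t) (x - y) * (z t y - z t x) := by
      have i1 := integrable_hk_mul hδ (slice hz ht.1 ht.2).aestronglyMeasurable (hM t ht) x
      have i2 : Integrable (fun y : E N => hk (t' - t) (x - y) * z t x) :=
        (integrable_hk_sub hδ x).mul_const _
      have e2 : (∫ y, hk (t' - t) (x - y) * (z t y - z t x)) =
          (∫ y, hk (t' - t) (x - y) * z t y) - ∫ y, hk (t' - t) (x - y) * z t x := by
        rw [← integral_sub i1 i2]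
        congr 1; ext y; ring
      rw [e2, integral_mul_const, integral_hk_sub hδ, one_mul]
      rfl
    rw [e1, ← Real.norm_eq_abs]
    calc ‖∫ y, hk (t' - t) (x - y) * (z t y - z t x)‖ ≤
        ∫ y, C1 / √(t - s) * (c2 N * Q) * c2 N * (hk (2 * (t' - t)) (x - y) * ‖x - y‖) := by
          apply norm_integral_le_of_norm_le (hi2.const_mul _)
          refine Eventually.of_forall fun y => ?_
          rw [norm_mul, Real.norm_of_nonneg (hk_nonneg hδ.le _), Real.norm_eq_abs]
          have q1 := mul_le_mul_of_nonneg_left (hL y) (hk_nonneg hδ.le (x - y))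
          refine q1.trans ?_
          rw [hk_eq hδ (x - y)]
          have q2 : Real.exp (-(‖x - y‖ ^ 2 / (8 * (t' - t)))) *
              Real.exp (‖x - y‖ ^ 2 / (8 * (t - s))) ≤ 1 := by
            rw [← Real.exp_add]
            apply Real.exp_le_one_iff.2
            have : ‖x - y‖ ^ 2 / (8 * (t - s)) ≤ ‖x - y‖ ^ 2 / (8 * (t' - t)) :=
              div_le_div_of_nonneg_left (by positivity) (by linarith) (by linarith)
            linarith
          have q3 := hk_nonneg (by linarith : 0 ≤ 2 * (t' - t)) (x - y)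
          have q4 : 0 ≤ C1 / √(t - s) * (c2 N * Q) * c2 N *
              (hk (2 * (t' - t)) (x - y) * ‖x - y‖) := by positivity
          calc c2 N * hk (2 * (t' - t)) (x - y) * Real.exp (-(‖x - y‖ ^ 2 / (8 * (t' - t)))) *
              (C1 / √(t - s) * (c2 N * Real.exp (‖x - y‖ ^ 2 / (8 * (t - s))) * Q) * ‖x - y‖)
              = (C1 / √(t - s) * (c2 N * Q) * c2 N * (hk (2 * (t' - t)) (x - y) * ‖x - y‖)) *
                (Real.exp (-(‖x - y‖ ^ 2 / (8 * (t' - t)))) *
              Real.exp (‖x - y‖ ^ 2 / (8 * (t - s)))) := by ring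
            _ ≤ (C1 / √(t - s) * (c2 N * Q) * c2 N * (hk (2 * (t' - t)) (x - y) * ‖x - y‖)) * 1 :=
                mul_le_mul_of_nonneg_left q2 q4
            _ = _ := mul_one _
      _ = C1 / √(t - s) * (c2 N * Q) * c2 N * ∫ z : E N, hk (2 * (t' - t)) z * ‖z‖ := by
          rw [integral_const_mul, he2]
      _ ≤ C1 / √(t - s) * (c2 N * Q) * c2 N * (A * √(2 * (t' - t))) :=
          mul_le_mul_of_nonneg_left hmom2.2 (by positivity)
      _ = _ := by ring
  -- second term
  have b2 : |∫ r in t..t', P (t' - r) (fun y => V r y * z r y) x| ≤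
      K * Real.exp (2 * K) * (c2 N * c2 N * Q) * (t' - t) := by
    have q0 : ∀ᵐ r, r ∈ uIoc t t' → ‖P (t' - r) (fun y => V r y * z r y) x‖ ≤
        K * Real.exp (2 * K) * (c2 N * c2 N * Q) := by
      filter_upwards [ae_ne t'] with r hr hr2
      rw [uIoc_of_le h3.le] at hr2
      have hrt : r < t' := lt_of_le_of_ne hr2.2 hr
      have hr1 : 0 < t' - r := by linarith
      have hr3 : 0 < r - s := by linarith [hr2.1]
      have hPG : AEStronglyMeasurable (P (r - s) G) volume := aesm_P hGm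
      have q6 : P (t' - r + (r - s)) G x ≤ c2 N * c2 N * Q := by
        have w1 : P (t' - r + (r - s)) G x ≤ c2 N * P (2 * (t - s)) G x :=
          P_le_P hτ (by linarith) (by linarith) hGm hGb hG0 x
        have w2 : P (2 * (t - s)) G x ≤ c2 N * P (2 * (2 * (t - s))) G x :=
          P_le_P (by linarith) le_rfl (by linarith) hGm hGb hG0 x
        have w3 : 2 * (2 * (t - s)) = 4 * (t - s) := by ring
        rw [w3] at w2
        calc _ ≤ _ := w1
          _ ≤ c2 N * (c2 N * Q) := mul_le_mul_of_nonneg_left w2 hc.le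
          _ = _ := by ring
      rw [← P_P hr1 hr3 hGm hGb x] at q6
      have q7 : ‖P (t' - r) (fun y => V r y * z r y) x‖ ≤
          ∫ y, hk (t' - r) (x - y) * (K * Real.exp (2 * K) * P (r - s) G y) := by
        change ‖∫ y, hk (t' - r) (x - y) * (V r y * z r y)‖ ≤ _
        refine norm_integral_le_of_norm_le ?_ (Eventually.of_forall fun y => ?_)
        · refine integrable_hk_mul hr1 (f := fun y => K * Real.exp (2 * K) * P (r - s) G y)
            (hPG.const_mul _) (C := K * Real.exp (2 * K) * M) (fun y => ?_) x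
          rw [abs_mul, abs_of_nonneg (by positivity : 0 ≤ K * Real.exp (2 * K))]
          exact mul_le_mul_of_nonneg_left (abs_P_le hr3 hGb y) (by positivity)
        · rw [norm_mul, norm_mul, Real.norm_of_nonneg (hk_nonneg hr1.le _), Real.norm_eq_abs,
            Real.norm_eq_abs]
          apply mul_le_mul_of_nonneg_left _ (hk_nonneg hr1.le _)
          have q3 := abs_z_le hKREP hKER hV hz h1 (by linarith : s < r) (by linarith : r ≤ b) y
          have q4 : Real.exp (K * (r - s)) ≤ Real.exp (2 * K) := by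
            apply Real.exp_le_exp.2
            nlinarith
          have q5 : 0 ≤ P (r - s) G y := P_nonneg hr3.le hG0 y
          calc |V r y| * |z r y| ≤ K * (Real.exp (2 * K) * P (r - s) G y) :=
                mul_le_mul (hV.bdd r y) (q3.trans (mul_le_mul_of_nonneg_right q4 q5))
                  (abs_nonneg _) hK.le
            _ = _ := by ring
      refine q7.trans ?_
      have q8 : ∫ y, hk (t' - r) (x - y) * (K * Real.exp (2 * K) * P (r - s) G y) =
          K * Real.exp (2 * K) * P (t' - r) (P (r - s) G) x :=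
        P_const_mul (t' - r) (K * Real.exp (2 * K)) (P (r - s) G) x
      rw [q8]
      exact mul_le_mul_of_nonneg_left q6 (by positivity)
    have := intervalIntegral.norm_integral_le_of_norm_le_const_ae q0
    rwa [Real.norm_eq_abs, abs_of_pos hδ] at this
  -- conclusion
  have e3 : z t' x - z t x = (P (t' - t) (z t) x - z t x) +
      ∫ r in t..t', P (t' - r) (fun y => V r y * z r y) x := by
    rw [hz.duh t t' ht.1 h3 h4 x]; ring
  have hsδ : √(2 * (t' - t)) = √2 * √(t' - t) := Real.sqrt_mul (by norm_num) _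
  have hsq : √((t' - t) / (t - s)) = √(t' - t) / √(t - s) := Real.sqrt_div hδ.le _
  have b3 : t' - t ≤ √((t' - t) / (t - s)) := by
    apply Real.le_sqrt_of_sq_le
    rw [le_div_iff₀ hτ]
    nlinarith
  rw [e3]
  calc _ ≤ _ := abs_add_le _ _
    _ ≤ C1 / √(t - s) * (c2 N * Q) * (c2 N * (A * √(2 * (t' - t)))) +
        K * Real.exp (2 * K) * (c2 N * c2 N * Q) * (t' - t) := add_le_add b1 b2
    _ ≤ C1 / √(t - s) * (c2 N * Q) * (c2 N * (A * √(2 * (t' - t)))) +
        K * Real.exp (2 * K) * (c2 N * c2 N * Q) * √((t' - t) / (t - s)) := by gcongr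
    _ = _ := by
        rw [hsδ, hsq]
        ring

end

theorem iel (hGRAD : T_GRAD) (hKREP : T_KREP) (hKER : T_KER) : T_IEL := by
  intro N K hK
  obtain ⟨A, hA, _, hmom⟩ := hGRAD N
  have hc := c2_pos (N := N)
  set C1 : ℝ := c2 N + 2 * (c2 N * (K * Real.exp K * c2 N)) with hC1
  set C2 : ℝ := C1 * c2 N * c2 N * A * √2 + K * Real.exp (2 * K) * (c2 N * c2 N) with hC2
  have h1 : 0 ≤ C1 := by positivity
  have h2 : 0 ≤ C2 := by positivity
  refine ⟨C1 + C2 + 1, by linarith, fun V z a b hV hz => ⟨fun s t ha hst hb h4 => ⟨?_, fun x => ?_⟩,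
    fun s t t' ha hst htt hb h5 h6 x => ?_⟩⟩
  · intro x _
    obtain ⟨D, hD, _⟩ := grad_z hKREP hKER hV hz ha hst hb h4 x
    exact hD.differentiableAt.differentiableWithinAt
  · obtain ⟨D, hD, hn⟩ := grad_z hKREP hKER hV hz ha hst hb h4 x
    rw [hD.fderiv]
    refine hn.trans ?_
    have hQ0 : 0 ≤ ∫ y, hk (2 * (t - s)) (x - y) * |z s y| :=
      integral_nonneg fun y => mul_nonneg (hk_nonneg (by linarith) _) (abs_nonneg _)
    apply mul_le_mul_of_nonneg_right _ hQ0
    apply div_le_div_of_nonneg_right _ (Real.sqrt_nonneg _)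
    linarith
  · have hQ0 : 0 ≤ ∫ y, hk (4 * (t - s)) (x - y) * |z s y| :=
      integral_nonneg fun y => mul_nonneg (hk_nonneg (by linarith) _) (abs_nonneg _)
    rcases htt.eq_or_lt with h | h
    · rw [← h, sub_self, abs_zero]
      positivity
    · refine (time_z hKREP hKER hV hA hmom h1 hz ha hst h hb h5 h6
        (fun x => grad_z hKREP hKER hV hz ha hst (by linarith) h6 x) x).trans ?_
      apply mul_le_mul_of_nonneg_right _ hQ0
      apply mul_le_mul_of_nonneg_right _ (Real.sqrt_nonneg _)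
      linarith

end Pool.Agent.H4.RF.IEL
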