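import Pool.Agent.H91.RF.TargetsF

/-!
# [KCV] convergence of kernels (MP_609556_an)
-/

open MeasureTheory Set Filter Topology Metric
open Pool.Agent.H29.TF
open Pool.Agent.H91.RD Pool.Agent.H91.RF

namespace Pool.Agent.H4.RF.KCV

variable {N : ℕ}

/-- joint measurability of the integrand of Duhamel's formula -/
theorem meas_int (h1 : T_KE1) {K : ℝ} {V : ℝ → E N → ℝ} (hV : Pt K V) (n : ℕ) (t : ℝ) (x : E N)
    (s : ℝ) (y : E N) :
    Measurable (fun p : ℝ × E N => hk (t - p.1) (x - p.2) * (V p.1 p.2 * gkn V n p.1 p.2 s y)) := by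
  have m1 : Measurable (fun p : ℝ × E N => hk (t - p.1) (x - p.2)) :=
    (measurable_hk_uncurry (V := E N)).comp
      ((measurable_const.sub measurable_fst).prodMk (measurable_const.sub measurable_snd))
  have m3 : Measurable (fun p : ℝ × E N => (p, ((s, y) : ℝ × E N))) :=
    measurable_id.prodMk measurable_const
  have m2 : Measurable (fun p : ℝ × E N => gkn V n p.1 p.2 s y) :=
    ((h1 N K V hV).1 n).comp m3
  exact m1.mul (hV.meas.mul m2)

theorem meas_F (h1 : T_KE1) {K : ℝ} {V : ℝ → E N → ℝ} (hV : Pt K V) (n : ℕ) (t : ℝ) (x : E N)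
    (s : ℝ) (y : E N) :
    StronglyMeasurable (fun r : ℝ => ∫ z, hk (t - r) (x - z) * (V r z * gkn V n r z s y)) :=
  (meas_int h1 hV n t x s y).stronglyMeasurable.integral_prod_right

theorem bd (h1 : T_KE1) {K : ℝ} {V : ℝ → E N → ℝ} (hV : Pt K V) (n : ℕ) {t r s : ℝ} (hr : r < t)
    (hs : s < r) (x y z : E N) :
    ‖hk (t - r) (x - z) * (V r z * gkn V n r z s y)‖ ≤
      K * ((K * (r - s)) ^ n / (n.factorial : ℝ)) * (hk (t - r) (x - z) * hk (r - s) (z - y)) := by
  have h2 := (h1 N K V hV).2.1 n s r hs z y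
  have h3 := hV.bdd r z
  have h4 : 0 ≤ hk (t - r) (x - z) := hk_nonneg (by linarith) _
  have h5 : 0 ≤ hk (r - s) (z - y) := hk_nonneg (by linarith) _
  have hK := hV.K0
  rw [norm_mul, norm_mul, Real.norm_of_nonneg h4, Real.norm_eq_abs, Real.norm_eq_abs]
  calc hk (t - r) (x - z) * (|V r z| * |gkn V n r z s y|)
      ≤ hk (t - r) (x - z) * (K * ((K * (r - s)) ^ n / (n.factorial : ℝ) * hk (r - s) (z - y))) := by
        refine mul_le_mul_of_nonneg_left ?_ h4
        exact mul_le_mul h3 h2 (abs_nonneg _) hK.le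
    _ = _ := by ring

theorem int_hh {t r s : ℝ} (hr : r < t) (hs : s < r) (x y : E N) :
    Integrable (fun z : E N => hk (t - r) (x - z) * hk (r - s) (z - y)) := by
  refine integrable_hk_mul (by linarith) (Continuous.aestronglyMeasurable (by fun_prop))
    (C := hk (r - s) (0 : E N)) (fun z => ?_) x
  rw [abs_of_nonneg (hk_nonneg (by linarith) _)]
  exact hk_le (by linarith) _

theorem step (h1 : T_KE1) {K s t : ℝ} {V : ℕ → ℝ → E N → ℝ} {W : ℝ → E N → ℝ}
    (hV : ∀ n, Pt K (V n)) (hW : Pt K W)
    (hlim : ∀ r ∈ Ioo s t, ∀ x, Tendsto (fun n => V n r x) atTop (𝓝 (W r x))) (n : ℕ) :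
    ∀ t' ∈ Ioc s t, ∀ x y,
      Tendsto (fun m => gkn (V m) n t' x s y) atTop (𝓝 (gkn W n t' x s y)) := by
  induction n with
  | zero =>
    intro t' _ x y
    exact tendsto_const_nhds
  | succ n ih =>
    intro t' ht' x y
    have hK := hW.K0
    show Tendsto (fun m => ∫ r in s..t', ∫ z, hk (t' - r) (x - z) *
      (V m r z * gkn (V m) n r z s y)) atTop (𝓝 (∫ r in s..t', ∫ z, hk (t' - r) (x - z) *
      (W r z * gkn W n r z s y)))
    refine intervalIntegral.tendsto_integral_filter_of_dominated_convergence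
      (fun _ => K * ((K * (t' - s)) ^ n / (n.factorial : ℝ)) * hk (t' - s) (x - y)) ?_ ?_ ?_ ?_
    · exact Eventually.of_forall fun m => (meas_F h1 (hV m) n t' x s y).aestronglyMeasurable
    · refine Eventually.of_forall fun m => ?_
      have hne : ∀ᵐ r : ℝ, r ≠ t' := by
        rw [ae_iff]
        simp
      filter_upwards [hne] with r hr hrI
      rw [uIoc_of_le ht'.1.le] at hrI
      have hrt : r < t' := lt_of_le_of_ne hrI.2 hr
      have h5 : ‖∫ z, hk (t' - r) (x - z) * (V m r z * gkn (V m) n r z s y)‖ ≤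
          ∫ z, K * ((K * (r - s)) ^ n / (n.factorial : ℝ)) *
            (hk (t' - r) (x - z) * hk (r - s) (z - y)) :=
        norm_integral_le_of_norm_le ((int_hh hrt hrI.1 x y).const_mul _)
          (Eventually.of_forall fun z => bd h1 (hV m) n hrt hrI.1 x y z)
      rw [integral_const_mul, semigroup_hk (by linarith) (by linarith [hrI.1])] at h5
      have h6 : t' - r + (r - s) = t' - s := by ring
      rw [h6] at h5
      refine h5.trans ?_
      refine mul_le_mul_of_nonneg_right ?_ (hk_nonneg (by linarith [ht'.1]) _)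
      refine mul_le_mul_of_nonneg_left ?_ hK.le
      refine div_le_div_of_nonneg_right ?_ (by positivity)
      refine pow_le_pow_left₀ (mul_nonneg hK.le (by linarith [hrI.1])) ?_ n
      exact mul_le_mul_of_nonneg_left (by linarith) hK.le
    · exact intervalIntegrable_const
    · have hne : ∀ᵐ r : ℝ, r ≠ t' := by
        rw [ae_iff]
        simp
      filter_upwards [hne] with r hr hrI
      rw [uIoc_of_le ht'.1.le] at hrI
      have hrt : r < t' := lt_of_le_of_ne hrI.2 hr
      refine tendsto_integral_of_dominated_convergence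
        (fun z => K * ((K * (r - s)) ^ n / (n.factorial : ℝ)) *
            (hk (t' - r) (x - z) * hk (r - s) (z - y))) ?_ ?_ ?_ ?_
      · intro m
        exact ((meas_int h1 (hV m) n t' x s y).comp measurable_prodMk_left).aestronglyMeasurable
      · exact (int_hh hrt hrI.1 x y).const_mul _
      · intro m
        exact Eventually.of_forall fun z => bd h1 (hV m) n hrt hrI.1 x y z
      · refine Eventually.of_forall fun z => ?_
        exact ((hlim r ⟨hrI.1, hrt.trans_le ht'.2⟩ z).mul
          (ih r ⟨hrI.1, (hrt.trans_le ht'.2).le⟩ z y)).const_mul _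

theorem kcv (h1 : T_KE1) : T_KCV := by
  intro N K s t V W hV hW hst hlim x y
  unfold gk
  refine tendsto_tsum_of_dominated_convergence
    (bound := fun n => (K * (t - s)) ^ n / (n.factorial : ℝ) * hk (t - s) (x - y))
    ((Real.summable_pow_div_factorial _).mul_right _) ?_ ?_
  · intro n
    exact step h1 hV hW hlim n t ⟨hst, le_rfl⟩ x y
  · exact Eventually.of_forall fun m n => (h1 N K (V m) (hV m)).2.1 n s t hst x y

end Pool.Agent.H4.RF.KCV
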