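import Pool.Agent.H91.RF.TargetsF
import Pool.Agent.H3.RD.Base

/-!
# [KEX] existence of solutions of the linear equation (MP_609556_an)
-/

open MeasureTheory Set Filter Topology Metric
open Pool.Agent.H29.TF
open Pool.Agent.H91.RD Pool.Agent.H91.RF

namespace Pool.Agent.H4.RF.KEX

variable {N : ℕ}

theorem int_hkhk {a b : ℝ} (ha : 0 < a) (hb : 0 < b) (x : E N) :
    Integrable (fun p : E N × E N => hk a (x - p.1) * hk b (p.1 - p.2))
      (volume.prod volume) := by
  have hm : AEStronglyMeasurable (fun p : E N × E N => hk a (x - p.1) * hk b (p.1 - p.2))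
      (volume.prod volume) := Continuous.aestronglyMeasurable (by fun_prop)
  rw [integrable_prod_iff hm]
  constructor
  · exact Eventually.of_forall fun w => (integrable_hk_sub hb w).const_mul (hk a (x - w))
  · have : (fun w : E N => ∫ y : E N, ‖hk a (x - w) * hk b (w - y)‖) =
        fun w => hk a (x - w) := by
      ext w
      have h1 : ∀ y : E N, ‖hk a (x - w) * hk b (w - y)‖ = hk a (x - w) * hk b (w - y) :=
        fun y => Real.norm_of_nonneg (mul_nonneg (hk_nonneg ha.le _) (hk_nonneg hb.le _))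
      simp_rw [h1]
      rw [integral_const_mul, integral_hk_sub hb, mul_one]
    rw [this]
    exact integrable_hk_sub ha x

theorem swap {a b c1 c2 M : ℝ} (ha : 0 < a) (hb : 0 < b) (x : E N) {A : E N → ℝ}
    {B : E N → E N → ℝ} {g : E N → ℝ} (hA : Measurable A)
    (hB : Measurable (fun p : E N × E N => B p.1 p.2)) (hg : Measurable g)
    (h1 : ∀ w, |A w| ≤ c1 * hk a (x - w)) (h2 : ∀ w y, |B w y| ≤ c2 * hk b (w - y))
    (h3 : ∀ y, |g y| ≤ M) :
    ∫ y, (∫ w, A w * B w y) * g y = ∫ w, A w * ∫ y, B w y * g y := by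
  have hint : Integrable (fun p : E N × E N => A p.1 * (B p.1 p.2 * g p.2))
      (volume.prod volume) := by
    refine ((int_hkhk ha hb x).const_mul (c1 * (c2 * M))).mono'
      ((hA.comp measurable_fst).mul (hB.mul (hg.comp measurable_snd))).aestronglyMeasurable
      (Eventually.of_forall fun p => ?_)
    rw [norm_mul, norm_mul, Real.norm_eq_abs, Real.norm_eq_abs, Real.norm_eq_abs]
    have e1 := h1 p.1
    have e2 := h2 p.1 p.2
    have e3 := h3 p.2
    calc |A p.1| * (|B p.1 p.2| * |g p.2|)
        ≤ c1 * hk a (x - p.1) * (c2 * hk b (p.1 - p.2) * M) := by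
          refine mul_le_mul e1 (mul_le_mul e2 e3 (abs_nonneg _) ((abs_nonneg _).trans e2))
            (by positivity) ((abs_nonneg _).trans e1)
      _ = _ := by ring
  calc ∫ y, (∫ w, A w * B w y) * g y = ∫ y, ∫ w, A w * (B w y * g y) := by
        congr 1; ext y
        rw [← integral_mul_const]
        congr 1; ext w; ring
    _ = ∫ w, ∫ y, A w * (B w y * g y) :=
        (integral_integral_swap (f := fun w y => A w * (B w y * g y)) hint).symm
    _ = ∫ w, A w * ∫ y, B w y * g y := by
        congr 1; ext w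
        rw [integral_const_mul]

section

variable {K : ℝ} {V : ℝ → E N → ℝ}

theorem abs_gk (hKER : T_KER) (hV : Pt K V) {s t : ℝ} (hst : s < t) (x y : E N) :
    |gk V t x s y| ≤ Real.exp (K * (t - s)) * hk (t - s) (x - y) := by
  obtain ⟨h1, h2⟩ := (hKER N K V hV).2.1 s t hst x y
  have h3 : 0 ≤ gk V t x s y :=
    le_trans (mul_nonneg (Real.exp_pos _).le (hk_nonneg (by linarith) _)) h1
  rw [abs_of_nonneg h3]
  exact h2

theorem meas_gk (hKER : T_KER) (hV : Pt K V) {s t : ℝ} (hst : s < t) :
    Measurable (fun p : E N × E N => gk V t p.1 s p.2) := (hKER N K V hV).1 s t hst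

theorem meas_gk1 (hKER : T_KER) (hV : Pt K V) {s t : ℝ} (hst : s < t) (x : E N) :
    Measurable (fun y : E N => gk V t x s y) :=
  (meas_gk hKER hV hst).comp measurable_prodMk_left

theorem int_gk (hKER : T_KER) (hV : Pt K V) {s t : ℝ} (hst : s < t) {g : E N → ℝ}
    (hg : Measurable g) {M : ℝ} (hM : ∀ y, |g y| ≤ M) (x : E N) :
    Integrable (fun y => gk V t x s y * g y) := by
  refine ((integrable_hk_sub (by linarith : 0 < t - s) x).const_mul
    (Real.exp (K * (t - s)) * M)).mono' ((meas_gk1 hKER hV hst x).mul hg).aestronglyMeasurable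
    (Eventually.of_forall fun y => ?_)
  rw [norm_mul, Real.norm_eq_abs, Real.norm_eq_abs]
  calc |gk V t x s y| * |g y| ≤ (Real.exp (K * (t - s)) * hk (t - s) (x - y)) * M :=
        mul_le_mul (abs_gk hKER hV hst x y) (hM y) (abs_nonneg _)
          (mul_nonneg (Real.exp_pos _).le (hk_nonneg (by linarith) _))
    _ = _ := by ring

theorem abs_int_gk (hKER : T_KER) (hV : Pt K V) {s t : ℝ} (hst : s < t) {g : E N → ℝ}
    {M : ℝ} (hM : ∀ y, |g y| ≤ M) (x : E N) :
    |∫ y, gk V t x s y * g y| ≤ Real.exp (K * (t - s)) * M := by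
  have h1 : |∫ y, gk V t x s y * g y| ≤
      ∫ y, Real.exp (K * (t - s)) * M * hk (t - s) (x - y) := by
    rw [← Real.norm_eq_abs]
    refine norm_integral_le_of_norm_le
      ((integrable_hk_sub (by linarith : 0 < t - s) x).const_mul _)
      (Eventually.of_forall fun y => ?_)
    rw [norm_mul, Real.norm_eq_abs, Real.norm_eq_abs]
    calc |gk V t x s y| * |g y| ≤ (Real.exp (K * (t - s)) * hk (t - s) (x - y)) * M :=
          mul_le_mul (abs_gk hKER hV hst x y) (hM y) (abs_nonneg _)
            (mul_nonneg (Real.exp_pos _).le (hk_nonneg (by linarith) _))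
      _ = _ := by ring
  rwa [integral_const_mul, integral_hk_sub (by linarith), mul_one] at h1

/-- Chapman-Kolmogorov for solutions -/
theorem ck (hKER : T_KER) (hV : Pt K V) {s r t : ℝ} (hsr : s < r) (hrt : r < t) {g : E N → ℝ}
    (hg : Measurable g) {M : ℝ} (hM : ∀ y, |g y| ≤ M) (x : E N) :
    ∫ y, gk V t x s y * g y = ∫ w, gk V t x r w * ∫ y, gk V r w s y * g y := by
  have h1 : ∀ y, gk V t x s y = ∫ w, gk V t x r w * gk V r w s y := fun y =>
    ((hKER N K V hV).2.2 s r t hsr hrt x y).symm
  have h2 : ∀ y, gk V t x s y * g y = (∫ w, gk V t x r w * gk V r w s y) * g y := fun y => by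
    rw [← h1]
  rw [integral_congr_ae (Eventually.of_forall h2)]
  exact swap (a := t - r) (b := r - s) (by linarith) (by linarith) x (meas_gk1 hKER hV hrt x)
    (meas_gk hKER hV hsr) hg (abs_gk hKER hV hrt x) (abs_gk hKER hV hsr) hM

/-- measurability in the starting point -/
theorem meas_z (hKER : T_KER) (hV : Pt K V) {s t : ℝ} (hst : s < t) {g : E N → ℝ}
    (hg : Measurable g) : Measurable (fun x : E N => ∫ y, gk V t x s y * g y) := by
  have h1 : Measurable (fun p : E N × E N => gk V t p.1 s p.2 * g p.2) :=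
    (meas_gk hKER hV hst).mul (hg.comp measurable_snd)
  exact (h1.stronglyMeasurable.integral_prod_right').measurable

/-- Duhamel's formula from the initial time -/
theorem duh0 (hKE1 : T_KE1) (hKE2 : T_KE2) (hKER : T_KER) (hV : Pt K V) {s t : ℝ} (hst : s < t)
    {g : E N → ℝ} (hg : Measurable g) {M : ℝ} (hM : ∀ y, |g y| ≤ M) (x : E N) :
    ∫ y, gk V t x s y * g y = P (t - s) g x +
      ∫ r in s..t, P (t - r) (fun z => V r z * ∫ y, gk V r z s y * g y) x := by
  have hts : 0 < t - s := by linarith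
  have hK := hV.K0
  set Gk : ℝ → E N → E N → ℝ := fun r z y => if s < r then gk V r z s y else 0 with hGk
  have hGkm : Measurable (fun p : (ℝ × E N) × E N => Gk p.1.1 p.1.2 p.2) :=
    (hKE1 N K V hV).2.2.2 s
  set Ψ : ℝ → E N → ℝ := fun r y => ∫ z, hk (t - r) (x - z) * (V r z * Gk r z y) with hΨ
  have hΨm : StronglyMeasurable (fun p : ℝ × E N => Ψ p.1 p.2) := by
    have m1 : Measurable (fun p : (ℝ × E N) × E N => hk (t - p.1.1) (x - p.2)) :=
      (measurable_hk_uncurry (V := E N)).comp
        ((measurable_const.sub (measurable_fst.comp measurable_fst)).prodMk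
          (measurable_const.sub measurable_snd))
    have m2 : Measurable (fun p : (ℝ × E N) × E N => V p.1.1 p.2) :=
      hV.meas.comp ((measurable_fst.comp measurable_fst).prodMk measurable_snd)
    have m3 : Measurable (fun p : (ℝ × E N) × E N => Gk p.1.1 p.2 p.1.2) :=
      hGkm.comp (((measurable_fst.comp measurable_fst).prodMk measurable_snd).prodMk
        (measurable_snd.comp measurable_fst))
    exact (m1.mul (m2.mul m3)).stronglyMeasurable.integral_prod_right'
  have hΨb : ∀ r ∈ Ioo s t, ∀ y, |Ψ r y| ≤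
      K * Real.exp (K * (t - s)) * hk (t - s) (x - y) := by
    intro r hr y
    have hr1 : 0 < t - r := by linarith [hr.2]
    have hr2 : 0 < r - s := by linarith [hr.1]
    have h1 : |Ψ r y| ≤ ∫ z, K * Real.exp (K * (r - s)) *
        (hk (t - r) (x - z) * hk (r - s) (z - y)) := by
      rw [← Real.norm_eq_abs]
      refine norm_integral_le_of_norm_le (Integrable.const_mul ?_ _)
        (Eventually.of_forall fun z => ?_)
      · refine integrable_hk_mul hr1 (Continuous.aestronglyMeasurable (by fun_prop))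
          (C := hk (r - s) (0 : E N)) (fun z => ?_) x
        rw [abs_of_nonneg (hk_nonneg hr2.le _)]
        exact hk_le hr2 _
      · rw [norm_mul, norm_mul, Real.norm_of_nonneg (hk_nonneg hr1.le _), Real.norm_eq_abs,
          Real.norm_eq_abs]
        have h2 : Gk r z y = gk V r z s y := by simp only [hGk, hr.1, if_true]
        rw [h2]
        calc hk (t - r) (x - z) * (|V r z| * |gk V r z s y|)
            ≤ hk (t - r) (x - z) * (K * (Real.exp (K * (r - s)) * hk (r - s) (z - y))) := by
              refine mul_le_mul_of_nonneg_left ?_ (hk_nonneg hr1.le _)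
              exact mul_le_mul (hV.bdd r z) (abs_gk hKER hV hr.1 z y) (abs_nonneg _) hK.le
          _ = _ := by ring
    rw [integral_const_mul, semigroup_hk hr1 hr2] at h1
    have h3 : t - r + (r - s) = t - s := by ring
    rw [h3] at h1
    refine h1.trans (mul_le_mul_of_nonneg_right ?_ (hk_nonneg hts.le _))
    refine mul_le_mul_of_nonneg_left (Real.exp_le_exp.2 ?_) hK.le
    exact mul_le_mul_of_nonneg_left (by linarith [hr.2]) hK.le
  -- the kernel
  have e1 : ∀ y, gk V t x s y = hk (t - s) (x - y) + ∫ r in Ioo s t, Ψ r y := by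
    intro y
    rw [hKE2 N K V hV s t hst x y, intervalIntegral.integral_of_le hst.le,
      integral_Ioc_eq_integral_Ioo]
    congr 1
    refine setIntegral_congr_fun measurableSet_Ioo fun r hr => ?_
    simp only [hΨ, hGk, hr.1, if_true]
  have intg := int_gk hKER hV hst hg hM x
  have inth : Integrable (fun y => hk (t - s) (x - y) * g y) :=
    integrable_hk_mul hts hg.aestronglyMeasurable hM x
  have intD : Integrable (fun y => (∫ r in Ioo s t, Ψ r y) * g y) := by
    refine (intg.sub inth).congr (Eventually.of_forall fun y => ?_)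
    simp only [Pi.sub_apply]
    rw [e1 y]
    ring
  have e2 : ∀ y, gk V t x s y * g y = hk (t - s) (x - y) * g y + (∫ r in Ioo s t, Ψ r y) * g y :=
    fun y => by rw [e1 y]; ring
  rw [integral_congr_ae (Eventually.of_forall e2), integral_add inth intD]
  congr 1
  rw [intervalIntegral.integral_of_le hst.le, integral_Ioc_eq_integral_Ioo]
  have hint : Integrable (fun p : E N × ℝ => Ψ p.2 p.1 * g p.1)
      (volume.prod (volume.restrict (Ioo s t))) := by
    have hb : Integrable (fun p : E N × ℝ => (K * Real.exp (K * (t - s)) * M *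
        hk (t - s) (x - p.1)) * (1 : ℝ)) (volume.prod (volume.restrict (Ioo s t))) :=
      ((integrable_hk_sub hts x).const_mul _).mul_prod (integrable_const (1 : ℝ))
    refine hb.mono' ?_ ?_
    · exact ((hΨm.measurable.comp measurable_swap).mul
        (hg.comp measurable_fst)).aestronglyMeasurable
    · filter_upwards [Pool.Agent.H3.RD.ae_snd_mem (N := N) (measurableSet_Ioo (a := s) (b := t))]
        with p hp
      rw [norm_mul, Real.norm_eq_abs, Real.norm_eq_abs, mul_one]
      calc |Ψ p.2 p.1| * |g p.1| ≤ (K * Real.exp (K * (t - s)) * hk (t - s) (x - p.1)) * M :=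
            mul_le_mul (hΨb _ hp _) (hM _) (abs_nonneg _) ((abs_nonneg _).trans (hΨb _ hp p.1))
        _ = _ := by ring
  calc ∫ y, (∫ r in Ioo s t, Ψ r y) * g y = ∫ y, ∫ r in Ioo s t, Ψ r y * g y := by
        congr 1; ext y
        rw [← integral_mul_const]
    _ = ∫ r in Ioo s t, ∫ y, Ψ r y * g y := integral_integral_swap hint
    _ = ∫ r in Ioo s t, P (t - r) (fun z => V r z * ∫ y, gk V r z s y * g y) x := by
        refine setIntegral_congr_fun measurableSet_Ioo fun r hr => ?_
        have hr1 : 0 < t - r := by linarith [hr.2]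
        have hr2 : 0 < r - s := by linarith [hr.1]
        have hVr : Measurable (V r) := hV.meas.comp measurable_prodMk_left
        have h4 := swap (a := t - r) (b := r - s) (c1 := K) (c2 := Real.exp (K * (r - s)))
          (M := M) hr1 hr2 x (A := fun z => hk (t - r) (x - z) * V r z)
          (B := fun z y => gk V r z s y) (g := g)
          (((continuous_hk (t - r)).measurable.comp (measurable_const.sub measurable_id)).mul hVr)
          (meas_gk hKER hV hr.1) hg (fun z => by
            rw [abs_mul, abs_of_nonneg (hk_nonneg hr1.le _), mul_comm]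
            exact mul_le_mul_of_nonneg_right (hV.bdd r z) (hk_nonneg hr1.le _))
          (abs_gk hKER hV hr.1) hM
        simp only
        have h5 : ∀ y, Ψ r y = ∫ z, hk (t - r) (x - z) * V r z * gk V r z s y := by
          intro y
          simp only [hΨ, hGk, hr.1, if_true]
          congr 1; ext z; ring
        simp_rw [h5]
        rw [h4]
        unfold P
        congr 1; ext z; ring

/-- Duhamel's formula from a later time -/
theorem duh1 (hKE1 : T_KE1) (hKE2 : T_KE2) (hKER : T_KER) (hV : Pt K V) {s s' t : ℝ}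
    (hss : s < s') (hst : s' < t) {g : E N → ℝ} (hg : Measurable g) {M : ℝ}
    (hM : ∀ y, |g y| ≤ M) (x : E N) :
    ∫ y, gk V t x s y * g y = P (t - s') (fun w => ∫ y, gk V s' w s y * g y) x +
      ∫ r in s'..t, P (t - r) (fun z => V r z * ∫ y, gk V r z s y * g y) x := by
  rw [ck hKER hV hss hst hg hM x]
  rw [duh0 hKE1 hKE2 hKER hV hst (meas_z hKER hV hss hg)
    (M := Real.exp (K * (s' - s)) * M) (fun y => abs_int_gk hKER hV hss hM y) x]
  congr 1
  refine intervalIntegral.integral_congr_ae ?_
  have hne : ∀ᵐ r : ℝ, r ≠ t := by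
    rw [ae_iff]
    simp
  filter_upwards [hne] with r _ hrI
  rw [uIoc_of_le hst.le] at hrI
  congr 1
  funext z
  rw [ck hKER hV hss hrI.1 hg hM z]

/-- the solution, truncated in time -/
noncomputable def Zt (V : ℝ → E N → ℝ) (s : ℝ) (g : E N → ℝ) (r : ℝ) (x : E N) : ℝ :=
  ∫ y, (if s < r then gk V r x s y else 0) * g y

theorem Zt_eq {s : ℝ} (g : E N → ℝ) {r : ℝ} (hr : s < r) (x : E N) :
    Zt V s g r x = ∫ y, gk V r x s y * g y := by
  unfold Zt
  simp only [hr, if_true]

theorem meas_Zt (hKE1 : T_KE1) (hV : Pt K V) (s : ℝ) {g : E N → ℝ} (hg : Measurable g) :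
    Measurable (fun p : ℝ × E N => Zt V s g p.1 p.2) := by
  have h1 : Measurable (fun p : (ℝ × E N) × E N =>
      (if s < p.1.1 then gk V p.1.1 p.1.2 s p.2 else 0) * g p.2) :=
    ((hKE1 N K V hV).2.2.2 s).mul (hg.comp measurable_snd)
  exact (h1.stronglyMeasurable.integral_prod_right').measurable

theorem P_sub_self {τ A L ε M : ℝ} (hτ : 0 < τ) (hL : 0 ≤ L) {g : E N → ℝ}
    (hg : Measurable g) (hgb : ∀ x, |g x| ≤ M)
    (h1 : Integrable (fun z : E N => hk τ z * ‖z‖)) (h2 : ∫ z : E N, hk τ z * ‖z‖ ≤ A * √τ)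
    (hlip : ∀ x y, |g x - g y| ≤ ε + L * ‖x - y‖) (x : E N) :
    |P τ g x - g x| ≤ ε + L * (A * √τ) := by
  have e1 : P τ g x - g x = ∫ y, hk τ (x - y) * (g y - g x) := by
    have i1 := integrable_hk_mul hτ hg.aestronglyMeasurable hgb x
    have i2 : Integrable (fun y : E N => hk τ (x - y) * g x) :=
      (integrable_hk_sub hτ x).mul_const _
    have e2 : (∫ y, hk τ (x - y) * (g y - g x)) =
        (∫ y, hk τ (x - y) * g y) - ∫ y, hk τ (x - y) * g x := by
      rw [← integral_sub i1 i2]
      congr 1; ext y; ring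
    rw [e2, integral_mul_const, integral_hk_sub hτ, one_mul]
    rfl
  rw [e1, ← Real.norm_eq_abs]
  have h3 : Integrable (fun y : E N => hk τ (x - y) * ‖x - y‖) := h1.comp_sub_left x
  have h4 : ∫ y : E N, hk τ (x - y) * ‖x - y‖ = ∫ z : E N, hk τ z * ‖z‖ :=
    integral_sub_left_eq_self (fun z : E N => hk τ z * ‖z‖) volume x
  have h5 : Integrable (fun y : E N => ε * hk τ (x - y)) := (integrable_hk_sub hτ x).const_mul ε
  calc ‖∫ y, hk τ (x - y) * (g y - g x)‖ ≤
      ∫ y, (ε * hk τ (x - y) + L * (hk τ (x - y) * ‖x - y‖)) := by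
        apply norm_integral_le_of_norm_le (h5.add (h3.const_mul L))
        refine Eventually.of_forall fun y => ?_
        rw [norm_mul, Real.norm_of_nonneg (hk_nonneg hτ.le _), Real.norm_eq_abs, abs_sub_comm]
        have h6 := mul_le_mul_of_nonneg_left (hlip x y) (hk_nonneg hτ.le (x - y))
        refine h6.trans (le_of_eq ?_)
        simp only [Pi.add_apply]
        ring
    _ = ε + L * ∫ z : E N, hk τ z * ‖z‖ := by
        rw [integral_add h5 (h3.const_mul L), integral_const_mul, integral_const_mul, h4,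
          integral_hk_sub hτ, mul_one]
    _ ≤ ε + L * (A * √τ) := by
        have := mul_le_mul_of_nonneg_left h2 hL
        linarith

theorem ii_invsqrt {s t : ℝ} (hst : s < t) :
    IntervalIntegrable (fun r : ℝ => 1 / √(t - r)) volume s t := by
  have h1 : IntervalIntegrable (fun r : ℝ => r ^ (-(1 / 2) : ℝ)) volume 0 (t - s) :=
    intervalIntegral.intervalIntegrable_rpow' (by norm_num)
  have h2 := h1.comp_sub_left t
  simp only [sub_zero, sub_sub_cancel] at h2
  refine h2.symm.congr (fun r hr => ?_)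
  rw [uIoc_of_le hst.le] at hr
  show (t - r) ^ (-(1 / 2) : ℝ) = 1 / √(t - r)
  rw [Real.rpow_neg (by linarith [hr.2]), Real.sqrt_eq_rpow, one_div ((t - r) ^ (1 / 2 : ℝ))]

theorem int_invsqrt {s t : ℝ} (hst : s < t) : ∫ r in s..t, 1 / √(t - r) = 2 * √(t - s) := by
  have h1 : ∫ r in s..t, 1 / √(t - r) = ∫ r in s..t, (t - r) ^ (-(1 / 2) : ℝ) := by
    apply intervalIntegral.integral_congr
    intro r hr
    rw [uIcc_of_le hst.le] at hr
    show 1 / √(t - r) = (t - r) ^ (-(1 / 2) : ℝ)
    rw [Real.rpow_neg (by linarith [hr.2]), Real.sqrt_eq_rpow, one_div]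
  rw [h1, intervalIntegral.integral_comp_sub_left (fun r => r ^ (-(1 / 2) : ℝ)) t,
    integral_rpow (Or.inl (by norm_num)), sub_self]
  have h2 : (-(1 / 2) : ℝ) + 1 = 1 / 2 := by norm_num
  rw [h2, Real.zero_rpow (by norm_num), sub_zero, ← Real.sqrt_eq_rpow]
  ring

theorem ae_ne (t : ℝ) : ∀ᵐ r : ℝ, r ≠ t := by
  rw [ae_iff]
  simp

/-- bound of the Duhamel term -/
theorem abs_duh_le {s t M : ℝ} {h : ℝ → E N → ℝ} (hst : s ≤ t)
    (hb : ∀ r ∈ Ioo s t, ∀ x, |h r x| ≤ M) (x : E N) :
    |∫ r in s..t, P (t - r) (h r) x| ≤ M * (t - s) := by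
  have h1 : ∀ᵐ r, r ∈ uIoc s t → ‖P (t - r) (h r) x‖ ≤ M := by
    filter_upwards [ae_ne t] with r hr hr2
    rw [uIoc_of_le hst] at hr2
    have h3 : r < t := lt_of_le_of_ne hr2.2 hr
    rw [Real.norm_eq_abs]
    exact abs_P_le (by linarith) (hb r ⟨hr2.1, h3⟩) x
  have h4 := intervalIntegral.norm_integral_le_of_norm_le_const_ae h1
  rwa [Real.norm_eq_abs, abs_of_nonneg (by linarith : 0 ≤ t - s)] at h4

/-- spatial Lipschitz bound -/
theorem lip_Zt {A : ℝ}
    (hgrad : ∀ t > 0, ∀ (g : E N → ℝ) (M : ℝ), AEStronglyMeasurable g volume → (∀ y, |g y| ≤ M) →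
      ∀ x y, |P t g x - P t g y| ≤ A * M / √t * ‖x - y‖)
    (hKE1 : T_KE1) (hKE2 : T_KE2) (hKER : T_KER) (hV : Pt K V) {s b : ℝ} {g : E N → ℝ}
    (hg : Measurable g) {M : ℝ} (hM : ∀ y, |g y| ≤ M) {t : ℝ} (hst : s < t) (htb : t ≤ b)
    (x y : E N) :
    |Zt V s g t x - Zt V s g t y| ≤ (A * M / √(t - s) +
      2 * √(t - s) * (A * (K * (Real.exp (K * (b - s)) * M)))) * ‖x - y‖ := by
  have hK := hV.K0
  have hM0 : 0 ≤ M := (abs_nonneg _).trans (hM 0)
  set B := Real.exp (K * (b - s)) * M with hB
  have hZb : ∀ r, s < r → r ≤ t → ∀ z, |Zt V s g r z| ≤ B := by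
    intro r hr hrt z
    rw [Zt_eq g hr]
    refine (abs_int_gk hKER hV hr hM z).trans ?_
    apply mul_le_mul_of_nonneg_right _ hM0
    apply Real.exp_le_exp.2
    apply mul_le_mul_of_nonneg_left _ hK.le
    linarith
  have hHm : Measurable (Function.uncurry (fun r z => V r z * Zt V s g r z)) :=
    hV.meas.mul (meas_Zt hKE1 hV s hg)
  have hHb : ∀ r, s < r → r ≤ t → ∀ z, |V r z * Zt V s g r z| ≤ K * B := by
    intro r hr hrt z
    rw [abs_mul]
    exact mul_le_mul (hV.bdd r z) (hZb r hr hrt z) (abs_nonneg _) hK.le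
  have e : ∀ z, Zt V s g t z = P (t - s) g z +
      ∫ r in s..t, P (t - r) (fun z => V r z * Zt V s g r z) z := by
    intro z
    rw [Zt_eq g hst, duh0 hKE1 hKE2 hKER hV hst hg hM z]
    congr 1
    refine intervalIntegral.integral_congr_ae (Eventually.of_forall fun r hr => ?_)
    rw [uIoc_of_le hst.le] at hr
    simp only [Zt_eq g hr.1]
  have ii : ∀ z, IntervalIntegrable (fun r => P (t - r) (fun z => V r z * Zt V s g r z) z)
      volume s t := by
    intro z
    rw [intervalIntegrable_iff_integrableOn_Ioo_of_le hst.le]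
    refine Integrable.mono' (g := fun _ => K * B) (integrable_const _) ?_ ?_
    · exact ((Pool.Agent.H3.RD.meas_P t hHm).measurable.comp
        measurable_prodMk_right).aestronglyMeasurable
    · filter_upwards [ae_restrict_mem measurableSet_Ioo] with r hr
      rw [Real.norm_eq_abs]
      exact abs_P_le (by linarith [hr.2]) (hHb r hr.1 hr.2.le) z
  rw [e x, e y]
  have e3 : P (t - s) g x + (∫ r in s..t, P (t - r) (fun z => V r z * Zt V s g r z) x) -
      (P (t - s) g y + ∫ r in s..t, P (t - r) (fun z => V r z * Zt V s g r z) y) =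
      (P (t - s) g x - P (t - s) g y) +
        ((∫ r in s..t, P (t - r) (fun z => V r z * Zt V s g r z) x) -
        ∫ r in s..t, P (t - r) (fun z => V r z * Zt V s g r z) y) := by ring
  rw [e3]
  have b1 := hgrad (t - s) (by linarith) g M hg.aestronglyMeasurable hM x y
  have b2 : |(∫ r in s..t, P (t - r) (fun z => V r z * Zt V s g r z) x) -
        ∫ r in s..t, P (t - r) (fun z => V r z * Zt V s g r z) y| ≤
      2 * √(t - s) * (A * (K * B) * ‖x - y‖) := by
    rw [← intervalIntegral.integral_sub (ii x) (ii y)]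
    have h3 : ∀ᵐ r, r ∈ Ioc s t →
        ‖P (t - r) (fun z => V r z * Zt V s g r z) x - P (t - r) (fun z => V r z * Zt V s g r z) y‖ ≤
          1 / √(t - r) * (A * (K * B) * ‖x - y‖) := by
      filter_upwards [ae_ne t] with r hrt hr2
      have hlt : r < t := lt_of_le_of_ne hr2.2 hrt
      have := hgrad (t - r) (by linarith) (fun z => V r z * Zt V s g r z) (K * B)
        (hHm.comp measurable_prodMk_left).aestronglyMeasurable (hHb r hr2.1 hlt.le) x y
      rw [Real.norm_eq_abs]
      refine this.trans (le_of_eq ?_)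
      ring
    have h4 := intervalIntegral.norm_integral_le_of_norm_le hst.le h3
      ((ii_invsqrt hst).mul_const _)
    rw [intervalIntegral.integral_mul_const, int_invsqrt hst] at h4
    exact h4
  calc _ ≤ _ := abs_add_le _ _
    _ ≤ A * M / √(t - s) * ‖x - y‖ + 2 * √(t - s) * (A * (K * B) * ‖x - y‖) := add_le_add b1 b2
    _ = _ := by ring

theorem kex (h1 : T_KE1) (h2 : T_KE2) (h3 : T_KER) (h4 : T_GRAD) : T_KEX := by
  intro N K s b V g hV hsb hg ⟨M, hM⟩
  obtain ⟨A, hA, hgrad, hmom⟩ := h4 N
  have hK := hV.K0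
  have hM0 : 0 ≤ M := (abs_nonneg _).trans (hM 0)
  set B := Real.exp (K * (b - s)) * M with hB
  have hB0 : 0 ≤ B := by positivity
  have hMB : M ≤ B := by
    have : 1 ≤ Real.exp (K * (b - s)) := Real.one_le_exp (mul_nonneg hK.le (by linarith))
    nlinarith
  have hZb : ∀ r, s < r → r ≤ b → ∀ z, |Zt V s g r z| ≤ B := by
    intro r hr hrt z
    rw [Zt_eq g hr]
    refine (abs_int_gk h3 hV hr hM z).trans ?_
    apply mul_le_mul_of_nonneg_right _ hM0
    apply Real.exp_le_exp.2
    apply mul_le_mul_of_nonneg_left _ hK.le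
    linarith
  have hz : ∀ t, s < t → ∀ x, (if t ≤ s then g x else ∫ y, gk V t x s y * g y) = Zt V s g t x := by
    intro t ht x
    rw [if_neg (not_le.2 ht), Zt_eq g ht]
  have hHb : ∀ r, s < r → r ≤ b → ∀ z, |V r z * Zt V s g r z| ≤ K * B := by
    intro r hr hrt z
    rw [abs_mul]
    exact mul_le_mul (hV.bdd r z) (hZb r hr hrt z) (abs_nonneg _) hK.le
  have hZm : ∀ r, Measurable (Zt V s g r) := fun r =>
    (meas_Zt h1 hV s hg).comp measurable_prodMk_left
  -- Duhamel
  have D0 : ∀ t, s < t → ∀ x, Zt V s g t x = P (t - s) g x +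
      ∫ r in s..t, P (t - r) (fun z => V r z * Zt V s g r z) x := by
    intro t hst z
    rw [Zt_eq g hst, duh0 h1 h2 h3 hV hst hg hM z]
    congr 1
    refine intervalIntegral.integral_congr_ae (Eventually.of_forall fun r hr => ?_)
    rw [uIoc_of_le hst.le] at hr
    simp only [Zt_eq g hr.1]
  have D1 : ∀ s' t, s < s' → s' < t → ∀ x, Zt V s g t x = P (t - s') (Zt V s g s') x +
      ∫ r in s'..t, P (t - r) (fun z => V r z * Zt V s g r z) x := by
    intro s' t hss hst z
    rw [Zt_eq g (hss.trans hst), duh1 h1 h2 h3 hV hss hst hg hM z]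
    congr 1
    · congr 1
      funext w
      rw [Zt_eq g hss]
    · refine intervalIntegral.integral_congr_ae (Eventually.of_forall fun r hr => ?_)
      rw [uIoc_of_le hst.le] at hr
      simp only [Zt_eq g (hss.trans hr.1)]
  -- Lipschitz in space
  have LZ : ∀ σ, s < σ → σ ≤ b → ∀ t, σ ≤ t → t ≤ b → ∀ x y,
      |Zt V s g t x - Zt V s g t y| ≤ (A * M / √(σ - s) + 2 * √(b - s) * (A * (K * B))) *
        ‖x - y‖ := by
    intro σ hσ hσb t ht htb x y
    refine (lip_Zt hgrad h1 h2 h3 hV hg hM (hσ.trans_le ht) htb x y).trans ?_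
    apply mul_le_mul_of_nonneg_right _ (norm_nonneg _)
    apply add_le_add
    · apply div_le_div_of_nonneg_left (by positivity) (Real.sqrt_pos.2 (by linarith))
      exact Real.sqrt_le_sqrt (by linarith)
    · apply mul_le_mul_of_nonneg_right _ (by positivity)
      apply mul_le_mul_of_nonneg_left _ (by norm_num)
      exact Real.sqrt_le_sqrt (by linarith)
  -- modulus in time
  have TZ : ∀ σ, s < σ → σ ≤ b → ∀ t t', σ ≤ t → t < t' → t' ≤ b → ∀ x,
      |Zt V s g t' x - Zt V s g t x| ≤
        (A * M / √(σ - s) + 2 * √(b - s) * (A * (K * B))) * (A * √(t' - t)) +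
          K * B * (t' - t) := by
    intro σ hσ hσb t t' ht htt htb x
    have hτ : 0 < t' - t := by linarith
    have b1 := P_sub_self (ε := 0) (A := A)
      (L := A * M / √(σ - s) + 2 * √(b - s) * (A * (K * B))) hτ (by positivity) (hZm t)
      (hZb t (by linarith) (by linarith)) (hmom _ hτ).1 (hmom _ hτ).2
      (fun x y => by rw [zero_add]; exact LZ σ hσ hσb t ht (by linarith) x y) x
    rw [zero_add] at b1
    have b2 := abs_duh_le (M := K * B) (h := fun r z => V r z * Zt V s g r z) htt.le
      (fun r hr z => hHb r (by linarith [hr.1]) (by linarith [hr.2]) z) x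
    have e1 : Zt V s g t' x - Zt V s g t x = (P (t' - t) (Zt V s g t) x - Zt V s g t x) +
        ∫ r in t..t', P (t' - r) (fun z => V r z * Zt V s g r z) x := by
      rw [D1 t t' (by linarith) htt x]; ring
    rw [e1]
    exact (abs_add_le _ _).trans (add_le_add b1 b2)
  have CZ : ∀ t0 ∈ Ioc s b, ∀ x0 : E N, ContinuousWithinAt (fun p : ℝ × E N => Zt V s g p.1 p.2)
      (Icc s b ×ˢ univ) (t0, x0) := by
    intro t0 ht0 x0
    set σ := (s + t0) / 2 with hσ
    have h5 : s < σ := by rw [hσ]; linarith [ht0.1]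
    have h6 : σ < t0 := by rw [hσ]; linarith [ht0.1]
    set L := A * M / √(σ - s) + 2 * √(b - s) * (A * (K * B)) with hL
    have hL0 : 0 ≤ L := by positivity
    have key : ∀ᶠ p : ℝ × E N in 𝓝[Icc s b ×ˢ univ] (t0, x0),
        |Zt V s g p.1 p.2 - Zt V s g t0 x0| ≤
          L * (A * √|p.1 - t0|) + K * B * |p.1 - t0| + L * ‖p.2 - x0‖ := by
      have h7 : ∀ᶠ p : ℝ × E N in 𝓝[Icc s b ×ˢ univ] (t0, x0), σ < p.1 :=
        eventually_nhdsWithin_of_eventually_nhds
          (continuous_fst.continuousAt.eventually (lt_mem_nhds h6))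
      filter_upwards [h7, self_mem_nhdsWithin] with p hp1 hp2
      have hpb : p.1 ≤ b := hp2.1.2
      have q1 : |Zt V s g p.1 p.2 - Zt V s g t0 p.2| ≤
          L * (A * √|p.1 - t0|) + K * B * |p.1 - t0| := by
        rcases lt_trichotomy p.1 t0 with h | h | h
        · rw [abs_sub_comm, abs_sub_comm p.1 t0, abs_of_pos (by linarith : 0 < t0 - p.1)]
          exact TZ σ h5 (by linarith) p.1 t0 hp1.le h ht0.2 p.2
        · rw [h]; simp
        · rw [abs_of_pos (by linarith : 0 < p.1 - t0)]
          exact TZ σ h5 (by linarith) t0 p.1 h6.le h hpb p.2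
      have q2 := LZ σ h5 (by linarith [ht0.2]) t0 h6.le ht0.2 p.2 x0
      calc |Zt V s g p.1 p.2 - Zt V s g t0 x0| ≤
          |Zt V s g p.1 p.2 - Zt V s g t0 p.2| + |Zt V s g t0 p.2 - Zt V s g t0 x0| :=
            abs_sub_le _ _ _
        _ ≤ _ := add_le_add q1 q2
    have lim : Tendsto (fun p : ℝ × E N =>
        L * (A * √|p.1 - t0|) + K * B * |p.1 - t0| + L * ‖p.2 - x0‖)
        (𝓝[Icc s b ×ˢ univ] (t0, x0)) (𝓝 0) := by
      have hc : Continuous (fun p : ℝ × E N =>
        L * (A * √|p.1 - t0|) + K * B * |p.1 - t0| + L * ‖p.2 - x0‖) := by fun_prop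
      have := (hc.tendsto (t0, x0)).mono_left (nhdsWithin_le_nhds (s := Icc s b ×ˢ univ))
      simpa using this
    rw [ContinuousWithinAt, tendsto_iff_dist_tendsto_zero]
    refine squeeze_zero' (Eventually.of_forall fun _ => dist_nonneg) ?_ lim
    filter_upwards [key] with p hp
    rw [Real.dist_eq]
    exact hp
  refine ⟨⟨⟨B, fun t ht x => ?_⟩, ?_, ?_, ?_⟩, fun hu => ?_⟩
  · rcases le_or_gt t s with h | h
    · simp only [h, if_true]
      exact (hM x).trans hMB
    · rw [hz t h x]
      exact hZb t h ht.2 x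
  · simp only [le_refl, if_true]
    exact hg
  · rintro ⟨t0, x0⟩ hp
    have ht0 : t0 ∈ Ioc s b := hp.1
    have h5 := (CZ t0 ht0 x0).mono (prod_mono Ioc_subset_Icc_self (subset_refl univ))
    refine h5.congr_of_eventuallyEq ?_ (hz t0 ht0.1 x0)
    filter_upwards [self_mem_nhdsWithin] with p hp
    exact hz p.1 hp.1.1 p.2
  · intro s' t hs' hst htb x
    rw [hz t (hs'.trans_lt hst) x]
    have e : (∫ r in s'..t, P (t - r)
        (fun y => V r y * (if r ≤ s then g y else ∫ w, gk V r y s w * g w)) x) =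
        ∫ r in s'..t, P (t - r) (fun z => V r z * Zt V s g r z) x := by
      refine intervalIntegral.integral_congr_ae (Eventually.of_forall fun r hr => ?_)
      rw [uIoc_of_le hst.le] at hr
      simp only [hz r (hs'.trans_lt hr.1)]
    rw [e]
    rcases hs'.eq_or_lt with h | h
    · subst h
      simp only [le_refl, if_true]
      exact D0 t hst x
    · have e2 : (fun x => if s' ≤ s then g x else ∫ y, gk V s' x s y * g y) = Zt V s g s' := by
        funext x
        exact hz s' h x
      rw [e2]
      exact D1 s' t h hst x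
  · rintro ⟨t0, x0⟩ hp
    have ht0 : t0 ∈ Icc s b := hp.1
    rcases ht0.1.eq_or_lt with h | h
    · subst h
      -- at the initial time
      rw [Metric.continuousWithinAt_iff]
      intro ε hε
      rw [Metric.uniformContinuous_iff] at hu
      obtain ⟨δ, hδ, hd⟩ := hu (ε / 4) (by positivity)
      have hlip : ∀ x y, |g x - g y| ≤ ε / 4 + 2 * M / δ * ‖x - y‖ := by
        intro x y
        rcases lt_or_ge (dist x y) δ with h | h
        · have h5 := (hd h).le
          rw [Real.dist_eq] at h5
          have : 0 ≤ 2 * M / δ * ‖x - y‖ := by positivity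
          linarith
        · rw [dist_eq_norm] at h
          have h5 : |g x - g y| ≤ 2 * M := by
            calc |g x - g y| ≤ |g x| + |g y| := abs_sub _ _
              _ ≤ 2 * M := by linarith [hM x, hM y]
          have h6 : 2 * M ≤ 2 * M / δ * ‖x - y‖ := by
            calc 2 * M = 2 * M / δ * δ := by field_simp
              _ ≤ _ := mul_le_mul_of_nonneg_left h (by positivity)
          linarith
      have hc : Continuous (fun p : ℝ × E N =>
        2 * M / δ * (A * √(p.1 - s)) + K * B * (p.1 - s)) := by fun_prop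
      have hc1 := (hc.tendsto (s, x0)).eventually (gt_mem_nhds
        (show 2 * M / δ * (A * √(s - s)) + K * B * (s - s) < ε / 4 by simpa using hε))
      obtain ⟨δ1, hδ1, hd1⟩ := Metric.eventually_nhds_iff.1 hc1
      refine ⟨min δ δ1, lt_min hδ hδ1, fun p hp hpd => ?_⟩
      have hd2 := hd1 (lt_of_lt_of_le hpd (min_le_right _ _))
      have hpx : dist p.2 x0 < δ := by
        have : dist p.2 x0 ≤ dist p (s, x0) := le_max_right _ _
        exact this.trans_lt (lt_of_lt_of_le hpd (min_le_left _ _))
      have h7 := hd hpx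
      rw [Real.dist_eq] at h7
      have hps : s ≤ p.1 := hp.1.1
      have hpb : p.1 ≤ b := hp.1.2
      simp only [le_refl, if_true]
      have q : |(if p.1 ≤ s then g p.2 else ∫ y, gk V p.1 p.2 s y * g y) - g p.2| ≤
          ε / 4 + (2 * M / δ * (A * √(p.1 - s)) + K * B * (p.1 - s)) := by
        rcases hps.eq_or_lt with h | h
        · rw [← h]
          simp only [le_refl, if_true, sub_self, abs_zero, Real.sqrt_zero, mul_zero, add_zero]
          positivity
        · rw [hz p.1 h p.2, D0 p.1 h p.2]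
          have hτ : 0 < p.1 - s := by linarith
          have b1 := P_sub_self (ε := ε / 4) (A := A) (L := 2 * M / δ) hτ (by positivity) hg hM
            (hmom _ hτ).1 (hmom _ hτ).2 hlip p.2
          have b2 := abs_duh_le (M := K * B) (h := fun r z => V r z * Zt V s g r z) h.le
            (fun r hr z => hHb r hr.1 (by linarith [hr.2]) z) p.2
          have e1 : P (p.1 - s) g p.2 +
              (∫ r in s..p.1, P (p.1 - r) (fun z => V r z * Zt V s g r z) p.2) - g p.2 =
              (P (p.1 - s) g p.2 - g p.2) +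
              ∫ r in s..p.1, P (p.1 - r) (fun z => V r z * Zt V s g r z) p.2 := by ring
          rw [e1]
          have := (abs_add_le (P (p.1 - s) g p.2 - g p.2)
            (∫ r in s..p.1, P (p.1 - r) (fun z => V r z * Zt V s g r z) p.2)).trans
              (add_le_add b1 b2)
          linarith
      rw [Real.dist_eq]
      calc |(if p.1 ≤ s then g p.2 else ∫ y, gk V p.1 p.2 s y * g y) - g x0|
          ≤ |(if p.1 ≤ s then g p.2 else ∫ y, gk V p.1 p.2 s y * g y) - g p.2| +
            |g p.2 - g x0| := abs_sub_le _ _ _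
        _ < ε := by linarith
    · refine (CZ t0 ⟨h, ht0.2⟩ x0).congr_of_eventuallyEq ?_ (hz t0 h x0)
      have h7 : ∀ᶠ p : ℝ × E N in 𝓝[Icc s b ×ˢ univ] (t0, x0), s < p.1 :=
        eventually_nhdsWithin_of_eventually_nhds
          (continuous_fst.continuousAt.eventually (lt_mem_nhds h))
      filter_upwards [h7] with p hp
      exact hz p.1 hp p.2

end

end Pool.Agent.H4.RF.KEX
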