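import Pool.Agent.H91.RF.TargetsR
import Pool.Agent.H91.RF.TargetsA
import Pool.Agent.H91.RD.Basic

/-!
# MP_609556_an, full answer, module WID: the width of the pulled component is bounded
-/

open MeasureTheory Set Filter Topology Metric
open Pool.Agent.H29.TF (hk P)
open Pool.Agent.H91.RD
open Pool.Agent.H91.RF

namespace Pool.Agent.H4.RF.WID

theorem ndir_mono {N : ℕ} {U : Set (E N)} {η η' : ℝ} {x e : E N} (h : NDir U η x e)
    (hh : η ≤ η') : NDir U η' x e := by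
  obtain ⟨he, ξ, e0, hd, hle⟩ := h
  exact ⟨he, ξ, e0, hd, hle.trans hh⟩

theorem cone_est {N : ℕ} {e : E N} (he : ‖e‖ = 1) {ka a H : ℝ} (hka0 : 0 < ka) (h : E N)
    (hh : ‖h‖ ≤ H) (ha : (1 + ka) * H ≤ (1 - ka) * a) (ha0 : 0 ≤ a) :
    ka * ‖a • e - h‖ ≤ inner ℝ (a • e - h) e := by
  have h1 : ‖a • e - h‖ ≤ a + ‖h‖ := by
    refine (norm_sub_le _ _).trans ?_
    rw [norm_smul, he, Real.norm_of_nonneg ha0, mul_one]
  have h2 : inner ℝ (a • e - h) e = a - inner ℝ h e := by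
    rw [inner_sub_left, real_inner_smul_left, real_inner_self_eq_norm_sq, he]
    ring
  have h3 : inner ℝ h e ≤ ‖h‖ := by
    have := real_inner_le_norm h e
    rwa [he, mul_one] at this
  rw [h2]
  have h4 : ka * ‖a • e - h‖ ≤ ka * (a + ‖h‖) := mul_le_mul_of_nonneg_left h1 hka0.le
  have h5 : (1 + ka) * ‖h‖ ≤ (1 + ka) * H := mul_le_mul_of_nonneg_left hh (by linarith)
  have h6 : (1 + ka) * ‖h‖ = ‖h‖ + ka * ‖h‖ := by ring
  have h7 : (1 - ka) * a = a - ka * a := by ring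
  have h8 : ka * (a + ‖h‖) = ka * a + ka * ‖h‖ := by ring
  linarith

/-- the base level in a moving ball -/
theorem base_est {N : ℕ} {u : ℝ → E N → ℝ} {e : E N} (he : ‖e‖ = 1)
    {ka R1 L2 L4 T0 c ε δ m t2 G dB : ℝ} {x2 : E N} (hc : 0 < c) (hε : 0 ≤ ε) (hδ : 0 < δ)
    (hka0 : 0 < ka) (hka1 : ka < 1) (hL40 : 0 ≤ L4)
    (hL4 : (1 + ka) * (R1 + (c + δ) * T0 + L2) ≤ (1 - ka) * L4)
    (hW : ∀ τ ∈ Icc 0 T0, ∀ y, dist y (x2 + ((c + ε) * τ) • e) ≤ dB →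
      (∀ z ∈ closedBall y L2, ka * ‖(x2 + ((c + ε) * τ) • e) - z‖ ≤
        inner ℝ ((x2 + ((c + ε) * τ) • e) - z) e) → m ≤ u (t2 + τ) y)
    (hdB : (c + ε) * T0 + G + (R1 + (c + δ) * T0) ≤ dB) :
    ∀ r, L4 ≤ r → r ≤ G → ∀ τ ∈ Icc 0 T0, ∀ y, dist y (x2 - r • e) ≤ R1 + (c + δ) * τ →
      m ≤ u (t2 + τ) y := by
  intro r hr1 hr2 τ hτ y hy
  have hr0 : 0 ≤ r := hL40.trans hr1
  have hcε : 0 < c + ε := by linarith
  have hcδ : 0 < c + δ := by linarith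
  have hτ0 : 0 ≤ (c + ε) * τ := mul_nonneg hcε.le hτ.1
  have hτT : (c + ε) * τ ≤ (c + ε) * T0 := mul_le_mul_of_nonneg_left hτ.2 hcε.le
  have hτD : (c + δ) * τ ≤ (c + δ) * T0 := mul_le_mul_of_nonneg_left hτ.2 hcδ.le
  have key : ∀ z, (x2 + ((c + ε) * τ) • e) - z = ((c + ε) * τ + r) • e - (z - (x2 - r • e)) := by
    intro z
    rw [add_smul]
    abel
  refine hW τ hτ y ?_ ?_
  · rw [dist_comm, dist_eq_norm, key]
    refine (norm_sub_le _ _).trans ?_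
    rw [norm_smul, he, Real.norm_of_nonneg (by linarith), mul_one, ← dist_eq_norm]
    linarith
  · intro z hz
    rw [key]
    refine cone_est he hka0 _ (H := R1 + (c + δ) * T0 + L2) ?_ ?_ (by linarith)
    · rw [← dist_eq_norm]
      rw [mem_closedBall] at hz
      linarith [dist_triangle z y (x2 - r • e)]
    · refine hL4.trans ?_
      exact mul_le_mul_of_nonneg_left (by linarith) (by linarith)

/-- one step of the iteration -/
theorem step {N : ℕ} {u : ℝ → E N → ℝ} {e : E N} (he : ‖e‖ = 1)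
    {R1 L L4 T0 c ε δ m ℓ t2 G : ℝ} {x2 : E N} (hc : 0 < c) (hε : 0 ≤ ε) (hδ : 0 < δ)
    (hT0 : 0 < T0) (hT : δ / 2 * T0 ≤ (δ - ε) * T0 - L)
    (hE1 : ∀ p ∈ ig u ℓ R1 t2, (∀ τ ∈ Icc 0 T0, ∀ y, dist y p ≤ R1 + (c + δ) * τ →
      m ≤ u (t2 + τ) y) → ∀ q, dist q p ≤ (c + δ) * T0 - L → q ∈ ig u ℓ R1 (t2 + T0))
    (hE2 : ∀ p ∈ ig u ℓ R1 t2, p ∈ ig u ℓ R1 (t2 + T0))
    (hbase : ∀ r, L4 ≤ r → r ≤ G + δ / 2 * T0 → ∀ τ ∈ Icc 0 T0, ∀ y,
      dist y (x2 - r • e) ≤ R1 + (c + δ) * τ → m ≤ u (t2 + τ) y)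
    (hG0 : 0 ≤ G) (hG : L4 + (c + ε) * T0 ≤ G)
    (hP : ∀ r, 0 ≤ r → r ≤ G → (x2 + ((c + ε) * T0) • e) - r • e ∉ ig u ℓ R1 (t2 + T0)) :
    ∀ r, 0 ≤ r → r ≤ G + δ / 2 * T0 → x2 - r • e ∉ ig u ℓ R1 t2 := by
  intro r hr0 hr1 hmem
  have hcε : 0 < (c + ε) * T0 := mul_pos (by linarith) hT0
  have hmv : ∀ r', (x2 + ((c + ε) * T0) • e) - r' • e = (x2 - r • e) +
      ((c + ε) * T0 + r - r') • e := by
    intro r'
    rw [sub_smul, add_smul]
    abel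
  rcases le_or_gt L4 r with h4 | h4
  · have h5 := hE1 _ hmem (hbase r h4 hr1)
    set r' : ℝ := max 0 (r - (δ - ε) * T0 + L) with hr'
    have hr'0 : 0 ≤ r' := le_max_left _ _
    have hr'1 : r - (δ - ε) * T0 + L ≤ r' := le_max_right _ _
    have hr'2 : r' ≤ G := max_le hG0 (by linarith)
    have hr'3 : r' ≤ r + (c + ε) * T0 := by
      refine max_le (by linarith) ?_
      have : 0 ≤ δ / 2 * T0 := by positivity
      linarith
    refine hP r' hr'0 hr'2 ?_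
    rw [hmv]
    refine h5 _ ?_
    rw [dist_eq_norm, add_sub_cancel_left, norm_smul, he, mul_one,
      Real.norm_of_nonneg (by linarith)]
    have e1 : (δ - ε) * T0 = δ * T0 - ε * T0 := by ring
    have e2 : (c + ε) * T0 = c * T0 + ε * T0 := by ring
    have e3 : (c + δ) * T0 = c * T0 + δ * T0 := by ring
    linarith
  · refine hP (r + (c + ε) * T0) (by linarith) (by linarith) ?_
    rw [hmv]
    have e1 : (c + ε) * T0 + r - (r + (c + ε) * T0) = 0 := by ring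
    rw [e1, zero_smul, add_zero]
    exact hE2 _ hmem

/-- `f > 0` to the right of `0` -/
theorem pos_near {f : ℝ → ℝ} (hr : Reaction f) (h : 0 < fp f 0) {b1 : ℝ} (hb : 0 < b1) :
    ∃ m > 0, 2 * m ≤ 1 ∧ m < b1 ∧ ∀ s ∈ Ioo 0 (2 * m), 0 < f s := by
  have h0 : (0 : ℝ) ∈ Icc (0 : ℝ) 1 := ⟨le_rfl, zero_le_one⟩
  have h1 : HasDerivWithinAt f (fp f 0) (Icc 0 1) 0 :=
    ((hr.smooth.differentiableOn one_ne_zero) 0 h0).hasDerivWithinAt
  have h2 := hasDerivWithinAt_iff_tendsto_slope.1 h1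
  have h3 : ∀ᶠ s in 𝓝[Icc 0 1 \ {0}] (0 : ℝ), 0 < slope f 0 s := h2.eventually_const_lt h
  rw [eventually_nhdsWithin_iff, Metric.eventually_nhds_iff] at h3
  obtain ⟨r, hr0, hr1⟩ := h3
  refine ⟨min (r / 2) (min (1 / 2) (b1 / 2)), by positivity, ?_, ?_, ?_⟩
  · have := (min_le_right (r / 2) (min (1 / 2) (b1 / 2))).trans (min_le_left _ _)
    linarith
  · have := (min_le_right (r / 2) (min (1 / 2) (b1 / 2))).trans (min_le_right _ _)
    linarith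
  · intro s hs
    have e1 := min_le_left (r / 2) (min (1 / 2) (b1 / 2))
    have e2 := (min_le_right (r / 2) (min (1 / 2) (b1 / 2))).trans (min_le_left _ _)
    have h4 := hr1 (y := s) (by
      rw [Real.dist_eq, sub_zero, abs_of_pos hs.1]
      linarith [hs.2]) ⟨⟨hs.1.le, by linarith [hs.2]⟩, by
        rw [mem_singleton_iff]
        exact hs.1.ne'⟩
    rw [slope_def_field, hr.zero, sub_zero, sub_zero] at h4
    have h5 := mul_pos h4 hs.1
    rwa [div_mul_cancel₀ _ hs.1.ne'] at h5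

/-- the iteration along a time interval -/
theorem iter {N : ℕ} {u : ℝ → E N → ℝ} {e : E N} (he : ‖e‖ = 1)
    {R1 L T0 c ε δ m ℓ t ka L2 L4 rp dB Ls : ℝ} {x : E N} (hc : 0 < c) (hε : 0 ≤ ε)
    (hδ : 0 < δ) (hT0 : 0 < T0) (hT : δ / 2 * T0 ≤ (δ - ε) * T0 - L) (hka0 : 0 < ka)
    (hka1 : ka < 1) (hL40 : 0 ≤ L4)
    (hL4 : (1 + ka) * (R1 + (c + δ) * T0 + L2) ≤ (1 - ka) * L4)
    (hE1 : ∀ t' > 0, ∀ p ∈ ig u ℓ R1 t', (∀ τ ∈ Icc 0 T0, ∀ y, dist y p ≤ R1 + (c + δ) * τ →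
      m ≤ u (t' + τ) y) → ∀ q, dist q p ≤ (c + δ) * T0 - L → q ∈ ig u ℓ R1 (t' + T0))
    (hE2 : ∀ t' > 0, ∀ p ∈ ig u ℓ R1 t', p ∈ ig u ℓ R1 (t' + T0))
    (hrp : rp * t < t)
    (hW : ∀ s ∈ Icc 0 (rp * t), ∀ y, dist y (x - ((c + ε) * s) • e) ≤ dB →
      (∀ z ∈ closedBall y L2, ka * ‖(x - ((c + ε) * s) • e) - z‖ ≤
        inner ℝ ((x - ((c + ε) * s) • e) - z) e) → m ≤ u (t - s) y)
    (hdB : (c + ε) * T0 + (Ls + δ / 2 * (rp * t)) + (R1 + (c + δ) * T0) ≤ dB)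
    (hLs : L4 + (c + ε) * T0 ≤ Ls)
    (hP : ∀ r, 0 ≤ r → r ≤ Ls → x - r • e ∉ ig u ℓ R1 t) (j : ℕ) (hj : j * T0 ≤ rp * t) :
    ∀ r, 0 ≤ r → r ≤ Ls + δ / 2 * (j * T0) →
      (x - ((c + ε) * (j * T0)) • e) - r • e ∉ ig u ℓ R1 (t - j * T0) := by
  have hcε : 0 < (c + ε) * T0 := mul_pos (by linarith) hT0
  have hLs0 : 0 ≤ Ls := by linarith
  induction j with
  | zero =>
    intro r hr0 hr1
    rw [Nat.cast_zero, zero_mul, mul_zero, zero_smul, sub_zero, sub_zero]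
    rw [Nat.cast_zero, zero_mul, mul_zero, add_zero] at hr1
    exact hP r hr0 hr1
  | succ j ih =>
    have e0 : ((j + 1 : ℕ) : ℝ) * T0 = j * T0 + T0 := by push_cast; ring
    rw [e0] at hj ⊢
    have hj' : (j : ℝ) * T0 ≤ rp * t := by linarith
    have hj0 : (0 : ℝ) ≤ j * T0 := by positivity
    have ih' := ih hj'
    have e1 : t - (j * T0 + T0) + T0 = t - j * T0 := by ring
    have e2 : x - ((c + ε) * (j * T0 + T0)) • e + ((c + ε) * T0) • e =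
        x - ((c + ε) * (j * T0)) • e := by
      have : (c + ε) * (j * T0 + T0) = (c + ε) * (j * T0) + (c + ε) * T0 := by ring
      rw [this, add_smul]
      abel
    have ht2 : 0 < t - (j * T0 + T0) := by linarith
    have e3 : Ls + δ / 2 * (j * T0 + T0) = (Ls + δ / 2 * (j * T0)) + δ / 2 * T0 := by ring
    rw [e3]
    have hj2 : 0 ≤ δ / 2 * (j * T0) := by positivity
    have hle : δ / 2 * (j * T0 + T0) ≤ δ / 2 * (rp * t) :=
      mul_le_mul_of_nonneg_left hj (by positivity)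
    refine step (t2 := t - (j * T0 + T0)) (x2 := x - ((c + ε) * (j * T0 + T0)) • e)
      (L4 := L4) (m := m) he hc hε hδ hT0 hT ?_ ?_ ?_ (by linarith) (by linarith) ?_
    · exact hE1 _ ht2
    · exact hE2 _ ht2
    · refine base_est (dB := dB) he hc hε hδ hka0 hka1 hL40 hL4 ?_ ?_
      · intro τ hτ y hy1 hy2
        have e4 : x - ((c + ε) * (j * T0 + T0)) • e + ((c + ε) * τ) • e =
            x - ((c + ε) * (j * T0 + T0 - τ)) • e := by
          have : (c + ε) * (j * T0 + T0 - τ) = (c + ε) * (j * T0 + T0) - (c + ε) * τ := by ring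
          rw [this, sub_smul]
          abel
        have e5 : t - (j * T0 + T0) + τ = t - (j * T0 + T0 - τ) := by ring
        rw [e4] at hy1 hy2
        rw [e5]
        exact hW _ ⟨by linarith [hτ.2], by linarith [hτ.1]⟩ y hy1 hy2
      · rw [← e3]
        linarith
    · rw [e1, e2]
      exact ih'

theorem small_ev (a b : ℝ) (hb : 0 < b) : ∀ᶠ r in 𝓝[>] (0 : ℝ), a * r ≤ b := by
  have h1 : Tendsto (fun r : ℝ => a * r) (𝓝 0) (𝓝 (a * 0)) :=
    (continuous_const.mul continuous_id).tendsto 0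
  rw [mul_zero] at h1
  exact ((h1.mono_left nhdsWithin_le_nhds).eventually_lt_const hb).mono fun _ h => h.le

theorem exists_small {A c ε δ Cg ρW ρK ρ0 ηL : ℝ} (hδ : 0 < δ) (hρW : 0 < ρW)
    (hρK : 0 < ρK) (hρ0 : 0 < ρ0) (hηL : 0 < ηL) :
    ∃ rp > 0, rp ≤ 1 / 2 ∧ rp ≤ ρW ∧ A * rp ≤ ρK ∧ A * rp ≤ ρ0 ∧ (2 * c + ε) * rp ≤ ηL / 4 ∧
      δ * rp ≤ ηL / 4 ∧ Cg * (A * rp) ^ 2 ≤ δ * rp / 16 := by
  have h1 := small_ev 1 (1 / 2) (by norm_num)
  have h2 := small_ev 1 ρW hρW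
  have h3 := small_ev A ρK hρK
  have h4 := small_ev A ρ0 hρ0
  have h5 := small_ev (2 * c + ε) (ηL / 4) (by positivity)
  have h6 := small_ev δ (ηL / 4) (by positivity)
  have h7 := small_ev (Cg * A ^ 2) (δ / 16) (by positivity)
  have h8 : ∀ᶠ r in 𝓝[>] (0 : ℝ), 0 < r := self_mem_nhdsWithin
  obtain ⟨r, h1, h2, h3, h4, h5, h6, h7, h8⟩ :=
    (h1.and (h2.and (h3.and (h4.and (h5.and (h6.and (h7.and h8))))))).exists
  refine ⟨r, h8, by linarith, by linarith, h3, h4, h5, h6, ?_⟩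
  have h9 := mul_le_mul_of_nonneg_right h7 h8.le
  have e1 : Cg * (A * r) ^ 2 = Cg * A ^ 2 * r * r := by ring
  have e2 : δ / 16 * r = δ * r / 16 := by ring
  rw [e1, ← e2]
  exact h9

/-- the conclusion at one point -/
theorem point {N : ℕ} {U : Set (E N)} {u : ℝ → E N → ℝ} {e : E N} {t : ℝ} {x : E N}
    {R1 L T0 c ε δ m ℓ ka L2 L4 rp Ls ηL TL ρK θ0 η δ6 e1 Cg b1 : ℝ} (he : ‖e‖ = 1)
    (hc : 0 < c) (hε : 0 < ε) (hδ : 0 < δ) (hT0 : 0 < T0)
    (hT : δ / 2 * T0 ≤ (δ - ε) * T0 - L) (hka0 : 0 < ka) (hka1 : ka < 1) (hL40 : 0 ≤ L4)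
    (hL4 : (1 + ka) * (R1 + (c + δ) * T0 + L2) ≤ (1 - ka) * L4) (hR1 : 0 ≤ R1)
    (hE1 : ∀ t' > 0, ∀ p ∈ ig u ℓ R1 t', (∀ τ ∈ Icc 0 T0, ∀ y, dist y p ≤ R1 + (c + δ) * τ →
      m ≤ u (t' + τ) y) → ∀ q, dist q p ≤ (c + δ) * T0 - L → q ∈ ig u ℓ R1 (t' + T0))
    (hE2 : ∀ t' > 0, ∀ p ∈ ig u ℓ R1 t', p ∈ ig u ℓ R1 (t' + T0)) (hrp0 : 0 < rp)
    (hrp : rp ≤ 1 / 2) (ht : 0 < t) (hLs : L4 + (c + ε) * T0 ≤ Ls)
    (hWB : ∀ s ∈ Icc 0 (rp * t), θ0 ≤ u (t - s) (x - ((c + ε) * s) • e))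
    (hWL : ∀ t' ≥ TL, ∀ z e', NDir U ηL z e' → |infDist z U - c * t'| ≤ ηL * t' → θ0 ≤ u t' z →
      ∀ y, dist y z ≤ ηL * t' → (∀ z' ∈ closedBall y L2, ka * ‖z - z'‖ ≤ inner ℝ (z - z') e') →
      m ≤ u t' y) (hηL : 0 < ηL)
    (hK : ∀ y, dist y x ≤ ρK * t → NDir U ηL y e)
    (hx : |infDist x U - c * t| ≤ η * t) (hη1 : η ≤ ηL / 4) (hη2 : η ≤ δ * rp / 16)
    (hr3 : (c + ε + δ) * rp ≤ ρK) (hr5 : (2 * c + ε) * rp ≤ ηL / 4)
    (hr6 : δ * rp ≤ ηL / 4) (hr7 : Cg * ((c + ε + δ) * rp) ^ 2 ≤ δ * rp / 16)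
    (hG : ∀ y, dist y x ≤ (c + ε + δ) * rp * t →
      infDist y U ≤ infDist x U + inner ℝ (y - x) e + (Cg * ((c + ε + δ) * rp) ^ 2 + e1) * t)
    (he1 : e1 ≤ δ * rp / 16) (hδ6 : δ6 ≤ δ * rp / 16) (hδ60 : 0 ≤ δ6)
    (hMA : ∀ t' ≥ t / 2, ∀ y, infDist y U ≤ (c - δ6) * t' → b1 - δ6 ≤ u t' y)
    (hb1 : ℓ ≤ b1 - δ6) (ht1 : 2 * TL ≤ t)
    (ht2 : (c + ε) * T0 + Ls + R1 + (c + δ) * T0 ≤ ηL / 8 * t)
    (ht3 : δ / 2 * T0 + R1 ≤ δ * rp / 4 * t) :
    ∃ r, 0 ≤ r ∧ r ≤ Ls ∧ x - r • e ∈ ig u ℓ R1 t := by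
  by_contra hcon
  push Not at hcon
  have hrt : 0 < rp * t := mul_pos hrp0 ht
  have hrt2 : rp * t ≤ t / 2 := by
    have := mul_le_mul_of_nonneg_right hrp ht.le
    linarith
  obtain ⟨hx1, hx2⟩ := abs_le.1 hx
  -- the base level along the path
  have hW : ∀ s ∈ Icc 0 (rp * t), ∀ y, dist y (x - ((c + ε) * s) • e) ≤ ηL * t / 2 →
      (∀ z ∈ closedBall y L2, ka * ‖(x - ((c + ε) * s) • e) - z‖ ≤
        inner ℝ ((x - ((c + ε) * s) • e) - z) e) → m ≤ u (t - s) y := by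
    intro s hs y hy hz
    have hcs : 0 ≤ (c + ε) * s := mul_nonneg (by linarith) hs.1
    have hd : dist (x - ((c + ε) * s) • e) x = (c + ε) * s := by
      rw [dist_eq_norm, sub_sub_cancel_left, norm_neg, norm_smul, he, mul_one,
        Real.norm_of_nonneg hcs]
    have hs2 : (c + ε) * s ≤ (c + ε) * (rp * t) := mul_le_mul_of_nonneg_left hs.2 (by linarith)
    have hs3 : c * s ≤ c * (rp * t) := mul_le_mul_of_nonneg_left hs.2 hc.le
    have hs4 : 0 ≤ c * s := mul_nonneg hc.le hs.1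
    have hN : NDir U ηL (x - ((c + ε) * s) • e) e := by
      refine hK _ ?_
      rw [hd]
      have := mul_le_mul_of_nonneg_right hr3 ht.le
      have e2 : (c + ε + δ) * rp * t = (c + ε) * (rp * t) + δ * (rp * t) := by ring
      have e3 : 0 ≤ δ * (rp * t) := by positivity
      linarith
    have hi1 : infDist (x - ((c + ε) * s) • e) U ≤ infDist x U + (c + ε) * s := by
      have := infDist_le_infDist_add_dist (x := x - ((c + ε) * s) • e) (y := x) (s := U)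
      rwa [hd] at this
    have hi2 : infDist x U ≤ infDist (x - ((c + ε) * s) • e) U + (c + ε) * s := by
      have := infDist_le_infDist_add_dist (x := x) (y := x - ((c + ε) * s) • e) (s := U)
      rwa [dist_comm, hd] at this
    have hq1 : (2 * c + ε) * rp * t ≤ ηL / 4 * t := mul_le_mul_of_nonneg_right hr5 ht.le
    have hq2 : η * t ≤ ηL / 4 * t := mul_le_mul_of_nonneg_right hη1 ht.le
    have hq3 : (2 * c + ε) * rp * t = (c + ε) * (rp * t) + c * (rp * t) := by ring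
    have hq4 : ηL * (t / 2) ≤ ηL * (t - s) :=
      mul_le_mul_of_nonneg_left (by linarith [hs.2]) hηL.le
    have hq5 : c * (t - s) = c * t - c * s := by ring
    refine hWL (t - s) (by linarith [hs.2]) _ e hN ?_ (hWB s hs) y ?_ hz
    · rw [abs_le, hq5]
      constructor
      · linarith
      · linarith
    · linarith
  -- the number of steps
  obtain ⟨n, hn1, hn2⟩ : ∃ n : ℕ, (n : ℝ) * T0 ≤ rp * t ∧ rp * t ≤ n * T0 + T0 := by
    refine ⟨⌊rp * t / T0⌋₊, ?_, ?_⟩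
    · have := Nat.floor_le (div_nonneg hrt.le hT0.le)
      rwa [le_div_iff₀ hT0] at this
    · have := (Nat.lt_floor_add_one (rp * t / T0)).le
      rw [div_le_iff₀ hT0] at this
      linarith
  have hcT : 0 ≤ (c + ε) * T0 := mul_nonneg (by linarith) hT0.le
  have hcD : 0 ≤ (c + δ) * T0 := mul_nonneg (by linarith) hT0.le
  have hkey := iter he hc hε.le hδ hT0 hT hka0 hka1 hL40 hL4 hE1 hE2 (by linarith) hW
    (by
      have := mul_le_mul_of_nonneg_right hr6 ht.le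
      have e2 : δ * rp * t = δ * (rp * t) := by ring
      linarith) hLs hcon n hn1 (δ / 2 * (n * T0)) (by positivity)
    (by linarith)
  apply hkey
  have hn0 : (0 : ℝ) ≤ n * T0 := by positivity
  set y0 : E N := x - ((c + ε) * (n * T0)) • e - (δ / 2 * (n * T0)) • e with hy0
  have hy0' : y0 - x = -(((c + ε) * (n * T0) + δ / 2 * (n * T0)) • e) := by
    rw [hy0, add_smul]
    abel
  have hD0 : 0 ≤ (c + ε) * (n * T0) + δ / 2 * (n * T0) := by positivity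
  have hin : inner ℝ (y0 - x) e = -((c + ε) * (n * T0) + δ / 2 * (n * T0)) := by
    rw [hy0', inner_neg_left, real_inner_smul_left, real_inner_self_eq_norm_sq, he]
    ring
  have hdy : dist y0 x = (c + ε) * (n * T0) + δ / 2 * (n * T0) := by
    rw [dist_eq_norm, hy0', norm_neg, norm_smul, he, mul_one, Real.norm_of_nonneg hD0]
  have hGy := hG y0 (by
    rw [hdy]
    have h1 : (c + ε) * (n * T0) ≤ (c + ε) * (rp * t) :=
      mul_le_mul_of_nonneg_left hn1 (by linarith)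
    have h2 : δ / 2 * (n * T0) ≤ δ / 2 * (rp * t) := mul_le_mul_of_nonneg_left hn1 (by linarith)
    have h3 : (c + ε + δ) * rp * t = (c + ε) * (rp * t) + δ * (rp * t) := by ring
    have h4 : 0 ≤ δ * (rp * t) := by positivity
    linarith)
  rw [hin] at hGy
  have hfin : infDist y0 U + R1 ≤ (c - δ6) * (t - n * T0) := by
    have h1 : η * t ≤ δ * rp / 16 * t := mul_le_mul_of_nonneg_right hη2 ht.le
    have h2 : (Cg * ((c + ε + δ) * rp) ^ 2 + e1) * t ≤ (δ * rp / 16 + δ * rp / 16) * t :=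
      mul_le_mul_of_nonneg_right (add_le_add hr7 he1) ht.le
    have h3 : δ6 * t ≤ δ * rp / 16 * t := mul_le_mul_of_nonneg_right hδ6 ht.le
    have h4 : (c - δ6) * (t - n * T0) = c * t - c * (n * T0) - δ6 * t + δ6 * (n * T0) := by ring
    have h5 : 0 ≤ δ6 * (n * T0) := mul_nonneg hδ60 hn0
    have h6 : (c + ε) * (n * T0) = c * (n * T0) + ε * (n * T0) := by ring
    have h7 : 0 ≤ ε * (n * T0) := mul_nonneg hε.le hn0
    have h8 : δ / 2 * (rp * t) ≤ δ / 2 * (n * T0 + T0) :=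
      mul_le_mul_of_nonneg_left hn2 (by positivity)
    have h9 : δ / 2 * (n * T0 + T0) = δ / 2 * (n * T0) + δ / 2 * T0 := by ring
    have h10 : (δ * rp / 16 + δ * rp / 16) * t = δ * rp / 16 * t + δ * rp / 16 * t := by ring
    have h11 : δ * rp / 4 * t = 4 * (δ * rp / 16 * t) := by ring
    have h12 : δ / 2 * (rp * t) = 8 * (δ * rp / 16 * t) := by ring
    linarith
  intro y hy
  rw [mem_closedBall] at hy
  have hi : infDist y U ≤ infDist y0 U + dist y y0 := infDist_le_infDist_add_dist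
  exact hb1.trans (hMA _ (by linarith) y (by linarith))

theorem wid (CNM : T_CNM) (WBK : T_WBK) (WLB : T_WLB) (EXC : T_EXC) (EXPJ : T_EXPJ)
    (ODEG : T_ODEG) (MA : T_MA) (GEOB : T_GEOB) (GEOK : T_GEOK) : T_WID := by
  intro N f K U u J b c y hi C0 C9 η0 hS hT h4 hM hbhi hF hV tn xn e w hAt hEnt hLim hw0 hw1
    ℓ0 hℓ0
  have hc : 0 < c 0 := hM.cpos
  have hb0 : b 0 = 0 := hT.b0
  have hb1 : 0 < b 1 := by
    have := hT.lt 0 hT.J0
    rw [hb0] at this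
    exact this
  have hb11 : b 1 ≤ 1 := hbhi.trans hM.hi1
  rw [hb0] at hw0
  obtain ⟨m, hm, hm2, hmb, hfm⟩ := pos_near hS.reac (by nlinarith [pow_pos hc 2] : 0 < fp f 0) hb1
  obtain ⟨ka, hCn⟩ := CNM N f K (c 0) C0 C9 η0 U u hS hc hF
  have hka0 := hCn.1
  have hka1 := hCn.2.1
  obtain ⟨δ, hδ, HEXC⟩ := EXC N f K J b c y hS.N1 hS.reac hS.lip hT m hm hmb
  obtain ⟨δn, hδn, -, hnear⟩ := hT.near 0 hT.J0
  rw [zero_add] at hnear
  obtain ⟨ℓ, L, R0, hℓa, hℓb, hmℓ, hL, hR0, HE⟩ := HEXC (min δn (b 1 - ℓ0))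
    (lt_min hδn (by linarith))
  have hm1 := min_le_left δn (b 1 - ℓ0)
  have hm2' := min_le_right δn (b 1 - ℓ0)
  have hX := EXPJ N f K J b c y hS.N1 hS.reac hS.lip hT 0 hT.J0
  rw [zero_add] at hX
  obtain ⟨ℓ1, L1, R01, h1a, h1b, hL1, hR01, HX⟩ := hX (min (c 0 / 2) (b 1 - ℓ))
    (lt_min (by linarith) (by linarith))
  have hm3 := min_le_left (c 0 / 2) (b 1 - ℓ)
  have hm4 := min_le_right (c 0 / 2) (b 1 - ℓ)
  obtain ⟨L3, S3, hL3, hS3, HO⟩ := ODEG N f K ℓ (b 1) (b 1 - ℓ1) R01 hS.lip (by linarith) hℓb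
    hb11 (fun s h1 h2 => hnear s ⟨by linarith, h2⟩) (by linarith) hR01
  set ε : ℝ := δ / 4 with hε'
  have hε : 0 < ε := by positivity
  set R1 : ℝ := max R0 L3 with hR1'
  have hR1a : R0 ≤ R1 := le_max_left _ _
  have hR1b : L3 ≤ R1 := le_max_right _ _
  have hR1 : 0 < R1 := hR0.trans_le hR1a
  set T0 : ℝ := 1 + 4 * L / δ + S3 + (R1 + L1) / (c 0 / 2) with hT0'
  have hq0 : 0 < 4 * L / δ := by positivity
  have hq1 : 0 < (R1 + L1) / (c 0 / 2) := by positivity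
  have hT0 : 0 < T0 := by positivity
  have hT0a : 4 * L / δ ≤ T0 := by rw [hT0']; linarith
  have hT0b : (R1 + L1) / (c 0 / 2) ≤ T0 - S3 := by rw [hT0']; linarith
  have hTT : δ / 2 * T0 ≤ (δ - ε) * T0 - L := by
    rw [div_le_iff₀ hδ] at hT0a
    rw [hε']
    nlinarith
  have hTS : R1 + L1 ≤ c 0 / 2 * (T0 - S3) := by
    rw [div_le_iff₀ (by positivity)] at hT0b
    linarith
  have hTS0 : 0 ≤ T0 - S3 := hq1.le.trans hT0b
  have hcls : Cls f u := ⟨hS.sol.sol.bdd, hS.sol.sol.c2, hS.sol.sol.dt, hS.sol.sol.cont,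
    hS.sol.sol.eqn⟩
  have hrng : ∀ t > 0, ∀ x, 0 ≤ u t x ∧ u t x ≤ 1 := fun t ht x =>
    ⟨hS.sol.nonneg ht x, hS.sol.le_one ht x⟩
  have hE1 : ∀ t' > 0, ∀ p ∈ ig u ℓ R1 t', (∀ τ ∈ Icc 0 T0, ∀ y,
      dist y p ≤ R1 + (c 0 + δ) * τ → m ≤ u (t' + τ) y) →
      ∀ q, dist q p ≤ (c 0 + δ) * T0 - L → q ∈ ig u ℓ R1 (t' + T0) := by
    intro t' ht' p hp hbase q hq z hz
    rw [mem_closedBall] at hz
    refine HE u hcls hrng t' ht' p R1 hR1a T0 hT0.le hp hbase z ?_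
    linarith [dist_triangle z q p]
  have hE2 : ∀ t' > 0, ∀ p ∈ ig u ℓ R1 t', p ∈ ig u ℓ R1 (t' + T0) := by
    intro t' ht' p hp z hz
    rw [mem_closedBall] at hz
    have h1 : ∀ y ∈ closedBall p R01, ℓ1 ≤ u (t' + S3) y := by
      intro y hy
      have h2 := HO 0 (lift0 U u) hS.sol.mild hS.sol.rng t' ht' p (by
        intro z' hz'
        rw [lift0_pos ht']
        exact hp z' (closedBall_subset_closedBall hR1b hz')) y hy
      rw [lift0_pos (by linarith)] at h2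
      linarith
    have h3 := HX u hcls hrng (t' + S3) (by linarith) p R01 le_rfl h1 (T0 - S3) hTS0 z (by
      have h4 : c 0 / 2 * (T0 - S3) ≤ (c 0 - min (c 0 / 2) (b 1 - ℓ)) * (T0 - S3) :=
        mul_le_mul_of_nonneg_right (by linarith) hTS0
      linarith)
    have e1 : t' + S3 + (T0 - S3) = t' + T0 := by ring
    rw [e1] at h3
    linarith
  -- small levels
  obtain ⟨lam, hlam, ρW, hρW, TW, hTW, HW⟩ := WBK N f K (c 0) C0 C9 η0 U u hS hc hF hV ε hε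
  set θ0 : ℝ := min lam (w 0 0 / 2) with hθ0'
  have hθ0 : 0 < θ0 := lt_min hlam (by linarith)
  have hθ1 : θ0 ≤ lam := min_le_left _ _
  have hθ2 : θ0 < w 0 0 := (min_le_right _ _).trans_lt (by linarith)
  obtain ⟨L2, hL2, ηL, hηL, TL, hTL, HL⟩ := WLB N f K (c 0) C0 C9 η0 ka m U u hS hc hF hCn hV hm
    hm2 hfm θ0 hθ0
  obtain ⟨Cg, hCg, ρ0, hρ0, HG⟩ := GEOB N U (c 0 / 2) (2 * c 0) hS.condC hS.ne (by positivity)
    (by linarith)
  obtain ⟨ρK, hρK, TK, hTK, HK⟩ := GEOK N U (c 0 / 2) hS.condC hS.ne (by positivity) ηL hηL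
  set L4 : ℝ := (1 + ka) * (R1 + (c 0 + δ) * T0 + L2) / (1 - ka) with hL4'
  have hka1' : 0 < 1 - ka := by linarith
  have hL40 : 0 ≤ L4 := by positivity
  have hL4 : (1 + ka) * (R1 + (c 0 + δ) * T0 + L2) ≤ (1 - ka) * L4 := by
    rw [hL4', mul_div_cancel₀ _ hka1'.ne']
  set Ls : ℝ := L4 + (c 0 + ε) * T0 with hLs'
  have hLs0 : 0 ≤ Ls := by positivity
  obtain ⟨rp, hrp0, hr1, hr2, hr3, hr4, hr5, hr6, hr7⟩ := exists_small (A := c 0 + ε + δ)
    (c := c 0) (ε := ε) (Cg := Cg) hδ hρW hρK hρ0 hηL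
  have hAp : 0 < (c 0 + ε + δ) * rp := by positivity
  have he1p : 0 < δ * rp / 16 := by positivity
  obtain ⟨ηG, hηG, TG, hTG, HG'⟩ := HG ((c 0 + ε + δ) * rp) hAp hr4 (δ * rp / 16) he1p
  set δ6 : ℝ := min (δ * rp / 16) (b 1 - ℓ) with hδ6'
  have hδ6 : 0 < δ6 := lt_min he1p (by linarith)
  have hMA := MA N f K U u J b c y hS hT 0 hT.J0 δ6 hδ6
  rw [zero_add] at hMA
  obtain ⟨T6, hT6, H6⟩ := hMA
  set η : ℝ := min (min ρW ρK) (min (min ηG (c 0 / 2)) (min (ηL / 4) (δ * rp / 16))) with hη'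
  have hη : 0 < η := by positivity
  have hη1 : η ≤ ρW := (min_le_left _ _).trans (min_le_left _ _)
  have hη2 : η ≤ ρK := (min_le_left _ _).trans (min_le_right _ _)
  have hη3 : η ≤ ηG := (min_le_right _ _).trans ((min_le_left _ _).trans (min_le_left _ _))
  have hη4 : η ≤ c 0 / 2 := (min_le_right _ _).trans ((min_le_left _ _).trans (min_le_right _ _))
  have hη5 : η ≤ ηL / 4 := (min_le_right _ _).trans ((min_le_right _ _).trans (min_le_left _ _))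
  have hη6 : η ≤ δ * rp / 16 :=
    (min_le_right _ _).trans ((min_le_right _ _).trans (min_le_right _ _))
  have hu0 : ∀ᶠ n in atTop, θ0 < u (tn n) (xn n) := by
    have := (hLim.tendsto 0 0).eventually_const_lt hθ2
    simpa using this
  have hev : ∀ᶠ n in atTop, ∃ r, 0 ≤ r ∧ r ≤ Ls ∧ xn n - r • e ∈ ig u ℓ R1 (tn n) := by
    filter_upwards [hAt.2 η hη, hu0, hAt.1.eventually_ge_atTop TW, hAt.1.eventually_ge_atTop TK,
      hAt.1.eventually_ge_atTop TG, hAt.1.eventually_ge_atTop (2 * T6),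
      hAt.1.eventually_ge_atTop (2 * TL), hAt.1.eventually_ge_atTop
        (((c 0 + ε) * T0 + Ls + R1 + (c 0 + δ) * T0) / (ηL / 8)),
      hAt.1.eventually_ge_atTop ((δ / 2 * T0 + R1) / (δ * rp / 4))] with n hn hn0 hn1 hn2 hn3 hn4
      hn5 hn6 hn7
    rw [div_le_iff₀ (by positivity)] at hn6 hn7
    obtain ⟨hnd, hnx⟩ := hn
    have ht : 0 < tn n := hTW.trans_le hn1
    obtain ⟨hnx1, hnx2⟩ := abs_le.1 hnx
    have hq1 : η * tn n ≤ c 0 / 2 * tn n := mul_le_mul_of_nonneg_right hη4 ht.le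
    have hq2 : η * tn n ≤ ρW * tn n := mul_le_mul_of_nonneg_right hη1 ht.le
    have hq3 : rp * tn n ≤ ρW * tn n := mul_le_mul_of_nonneg_right hr2 ht.le
    have hq4 : 0 < c 0 * tn n := mul_pos hc ht
    refine point (θ0 := θ0) (η := η) (δ6 := δ6) (b1 := b 1) hnd.1 hc hε hδ hT0 hTT hka0 hka1
      hL40 hL4 hR1.le hE1 hE2 hrp0 hr1 ht le_rfl ?_ HL hηL ?_ hnx hη5 hη6 hr3 hr5 hr6 hr7 ?_
      le_rfl (min_le_left _ _) hδ6.le ?_ ?_ hn5 (by linarith) (by linarith)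
    · intro s hs
      exact HW (tn n) hn1 (xn n) e (ndir_mono hnd hη1) (hnx.trans hq2) θ0 hθ0 hθ1 hn0.le s
        ⟨hs.1, hs.2.trans hq3⟩
    · intro y hy
      exact HK (tn n) hn2 (xn n) e (ndir_mono hnd hη2) (by linarith) y hy
    · intro y hy
      exact (HG' (tn n) hn3 (xn n) e (ndir_mono hnd hη3) (by linarith) (by linarith) y hy).2
    · intro t' ht' y hy
      exact H6 t' (by linarith) y hy
    · have := min_le_right (δ * rp / 16) (b 1 - ℓ)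
      linarith
  have hlim := hLim (Ls + 1) (by linarith)
  rw [Metric.tendstoUniformlyOn_iff] at hlim
  obtain ⟨n, ⟨r, hr0, hr1', hr2'⟩, hn2⟩ := (hev.and (hlim (ℓ - ℓ0) (by linarith))).exists
  refine ⟨-(r • e), ?_⟩
  have he : ‖e‖ = 1 := by
    obtain ⟨n, hn⟩ := (hAt.2 1 one_pos).exists
    exact hn.1.1
  have h5 := hn2 (0, -(r • e)) ⟨⟨by simp only; linarith, by simp only; linarith⟩, by
    rw [mem_closedBall_zero_iff]
    simp only [norm_neg, norm_smul, he, mul_one, Real.norm_of_nonneg hr0]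
    linarith⟩
  simp only [add_zero] at h5
  have h6 : ℓ ≤ u (tn n) (xn n + -(r • e)) := by
    rw [← sub_eq_add_neg]
    exact hr2' _ (mem_closedBall_self hR1.le)
  rw [Real.dist_eq, abs_lt] at h5
  linarith

end Pool.Agent.H4.RF.WID
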